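import Pool.Agent.Helper90K9.AB.Near
import Pool.Agent.Helper90K9.AB.GV

/-!
# Which operations on blocks have good codes?

Divide the words of length `n = m w` into `m` blocks of `w` bits.  Linear codes are closed under
the operation `x + y + z` on the blocks; are there other algebraic structures for good codes?  Let
`F` be any set of idempotent operations `g : ({0,1}^w)^k → {0,1}^w` (idempotent: `g(a, …, a) = a`)
and consider the codes that are closed under `F`, applied blockwise.  We say that `F` has an affine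
set if there are a prime `p`, a number `s ≥ 1` and an injective map `φ` from the vector space
`F_p^s` to the blocks such that every operation in `F` acts on its image as an affine operation:
`g(φ(x_1), …, φ(x_k)) = φ(M_1 x_1 + … + M_k x_k)` for some matrices `M_j`.

**Theorem (dichotomy).**
* If `F` has an affine set, then there are asymptotically good closed codes, with at
  least `2 ^ ((1 - H(δ)) m)` words and minimum distance at least `δ m`, for all `δ ≤ 1/2` and all `m`.
* If `F` has no affine set, then every closed code in which distinct words differ in at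
  least `D` blocks has at most `2 ^ (n / D)` words; this is sharp for all `F` if `D` divides `m`.
  So a closed code with minimum distance `d` has at most `2 ^ (w n / d)` words:
  closed codes of relative distance `δ` have bounded size for fixed `w`, and rate zero
  if the length of the blocks is `w = o(n)`.

More generally the operations may depend on the block.  Then the code contains a subcode with
at least `|C| / 2 ^ (n / D)` words which has the same distance already on the affine blocks.  The
dichotomy is stable: for fixed `w`, `F` finite and `δ > 0` there is `θ > 0` such that every code of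
relative distance `δ` which is closed up to `θ m` errors, where the operations may be
arbitrary on `θ m` of the blocks and have no affine sets on the others, has at
most `2 ^ (w / δ)` words.

Examples without affine sets are all families of bounded width in the sense of constraint
satisfaction, i.e. families that generate weak near-unanimity operations of arities 3 and 4 with the
same binary minor (`no_affine_set` below): near-unanimity operations, semilattices, lattices, ….
But the condition is weaker than bounded width; it may hold when there is an affine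
quotient.  For `w = 1` the only idempotent operations with an affine set are the sums of an odd
number of variables.

Idea of the proof.  Let `θ` be a minimal congruence of `C` and let `I` be the set of the blocks
at which it is faithful; then `|I| ≥ D`.  If the kernels of the projections to the blocks in `I`
generate the full congruence, then `θ` is central (term condition), and the classes of `θ`, which
are algebras as the operations are idempotent and which embed in the blocks in `I`, are abelian;
and a minimal abelian idempotent algebra is affine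
(`Pool.Agent.Helper90K9.AB.Basic`: its differences form a group, by a rigidity argument).  Otherwise
`C` splits into closed subcodes with disjoint sets of letters at each block of `I`, and
Hölder's inequality gives the bound.
-/

set_option autoImplicit false

open Finset

namespace Pool.Agent.Results.MP_0430e4_lc.BlockOperations

/-- blocks of `w` bits -/
abbrev Block (w : ℕ) : Type := Fin w → Bool

/-- binary words of length `n = m * w`, divided into `m` blocks of `w` bits -/
abbrev Word (m w : ℕ) : Type := Fin m → Block w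

/-- the Hamming distance: the number of the bits in which two words differ -/
def dist {m w : ℕ} (x y : Word m w) : ℕ := ∑ b, (univ.filter fun i => x b i ≠ y b i).card

/-- the number of the blocks in which two words differ -/
def blockDist {m w : ℕ} (x y : Word m w) : ℕ := (univ.filter fun b => x b ≠ y b).card

/-- A family of operations on the blocks, of arities `k j` -/
abbrev Ops (w : ℕ) {J : Type} (k : J → ℕ) : Type := ∀ j, (Fin (k j) → Block w) → Block w

/-- all operations of the family are idempotent: `g(a, …, a) = a` -/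
def Idempotent {w : ℕ} {J : Type} {k : J → ℕ} (g : Ops w k) : Prop := ∀ j a, g j (fun _ => a) = a

/-- The family has an affine set: for some prime `p` and `s ≥ 1` there is an injective map `φ` of the
vector space `F_p^s` to the blocks such that every operation acts on its image as an affine
operation: `g(φ(x_1), …, φ(x_k)) = φ(M_1 x_1 + … + M_k x_k)` with matrices `M_j` over `F_p`. -/
def HasAffineSet {w : ℕ} {J : Type} {k : J → ℕ} (g : Ops w k) : Prop :=
  ∃ (p s : ℕ) (φ : (Fin s → ZMod p) → Block w), p.Prime ∧ 0 < s ∧ Function.Injective φ ∧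
    ∀ j, ∃ M : Fin (k j) → Matrix (Fin s) (Fin s) (ZMod p), ∀ x : Fin (k j) → Fin s → ZMod p,
      g j (fun a => φ (x a)) = φ (∑ a, (M a).mulVec (x a))

/-- `C` is closed under the operations which are those of the family `f b` on the block `b` -/
def ClosedUnder {m w : ℕ} {J : Type} {k : J → ℕ} (f : Fin m → Ops w k) (C : Finset (Word m w)) :
    Prop :=
  ∀ j (x : Fin (k j) → Word m w), (∀ a, x a ∈ C) → (fun b => f b j fun a => x a b) ∈ C

/-- `C` is closed up to `e` errors: if the operation is applied to words of `C`, then the result is at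
Hamming distance at most `e` from a word of `C` -/
def NearlyClosed {m w : ℕ} {J : Type} {k : J → ℕ} (f : Fin m → Ops w k) (e : ℝ)
    (C : Finset (Word m w)) : Prop :=
  ∀ j (x : Fin (k j) → Word m w), (∀ a, x a ∈ C) →
    ∃ y ∈ C, (dist (fun b => f b j fun a => x a b) y : ℝ) ≤ e

/-- the binary entropy function `H₂(x) = - x log₂ x - (1 - x) log₂ (1 - x)` -/
noncomputable def H (x : ℝ) : ℝ := -x * Real.logb 2 x - (1 - x) * Real.logb 2 (1 - x)

theorem card_block (w : ℕ) : (Fintype.card (Block w) : ℝ) = 2 ^ w := by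
  simp [Block]

theorem dist_le {m w : ℕ} (x y : Word m w) : dist x y ≤ w * blockDist x y := by
  unfold dist blockDist
  rw [mul_comm, ← smul_eq_mul, ← sum_const, ← sum_filter_add_sum_filter_not univ
    (fun b => x b ≠ y b)]
  have h1 : ∑ b ∈ univ.filter (fun b => ¬ x b ≠ y b),
      (univ.filter fun i => x b i ≠ y b i).card = 0 := by
    refine sum_eq_zero fun b hb => ?_
    rw [mem_filter, not_not] at hb
    rw [card_eq_zero, filter_eq_empty_iff]
    intro i _ hi
    exact hi (congrFun hb.2 i)
  rw [h1, add_zero]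
  refine sum_le_sum fun b _ => ?_
  have := card_le_univ (univ.filter fun i => x b i ≠ y b i)
  rwa [Fintype.card_fin] at this

theorem blockDist_le {m w : ℕ} (x y : Word m w) : blockDist x y ≤ dist x y := by
  unfold dist blockDist
  rw [card_eq_sum_ones, ← sum_filter_add_sum_filter_not univ (fun b => x b ≠ y b)
    (fun b => (univ.filter fun i => x b i ≠ y b i).card)]
  refine le_add_right (sum_le_sum fun b hb => ?_)
  obtain ⟨i, hi⟩ := Function.ne_iff.1 (mem_filter.1 hb).2
  exact card_pos.2 ⟨i, mem_filter.2 ⟨mem_univ _, hi⟩⟩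

open Classical in
theorem upper {w m D : ℕ} {J : Type} {k : J → ℕ} (f : Fin m → Ops w k) (C : Finset (Word m w))
    (hD : 1 ≤ D) (hf : ∀ b, Idempotent (f b)) (hC : ClosedUnder f C)
    (hCd : ∀ x ∈ C, ∀ y ∈ C, x ≠ y → D ≤ blockDist x y) :
    ∃ C₀ ⊆ C, (∀ x ∈ C₀, ∀ y ∈ C₀, x ≠ y →
      D ≤ (univ.filter fun b => HasAffineSet (f b) ∧ x b ≠ y b).card) ∧
      (C.card : ℝ) ≤ C₀.card * 2 ^ ((w * m : ℝ) / D) := by
  obtain ⟨C₀, h1, h2, h3⟩ := Helper90K9.AB.card_le (k := k) f hf hD _ C rfl hC (by
    intro x hx y hy hxy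
    have := hCd x hx y hy hxy
    unfold blockDist at this
    convert this)
  refine ⟨C₀, h1, ?_, h3.trans (mul_le_mul_of_nonneg_left ?_ (Nat.cast_nonneg _))⟩
  · intro x hx y hy hxy
    exact h2 x hx y hy hxy
  · have hDpos : (0 : ℝ) < D := by exact_mod_cast hD
    calc ∏ i : Fin m, (Helper90K9.AB.lett C i) ^ ((1 : ℝ) / D)
        ≤ ∏ _i : Fin m, ((2 : ℝ) ^ w) ^ ((1 : ℝ) / D) := by
          refine prod_le_prod
            (fun i _ => Real.rpow_nonneg (Helper90K9.AB.lett_nonneg _ _) _) fun i _ => ?_
          refine Real.rpow_le_rpow (Helper90K9.AB.lett_nonneg _ _) ?_ (by positivity)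
          rw [← card_block]
          unfold Helper90K9.AB.lett
          exact_mod_cast card_le_univ _
      _ = 2 ^ ((w * m : ℝ) / D) := by
          rw [prod_const, card_univ, Fintype.card_fin, ← Real.rpow_natCast, ← Real.rpow_natCast,
            ← Real.rpow_mul (by norm_num), ← Real.rpow_mul (by norm_num)]
          congr 1
          ring

theorem upper_bits {w m d : ℕ} {J : Type} {k : J → ℕ} (f : Fin m → Ops w k)
    (C : Finset (Word m w)) (hd : 1 ≤ d) (hf : ∀ b, Idempotent (f b) ∧ ¬ HasAffineSet (f b))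
    (hC : ClosedUnder f C) (hCd : ∀ x ∈ C, ∀ y ∈ C, x ≠ y → d ≤ dist x y) :
    (C.card : ℝ) ≤ 2 ^ (w * (w * m) / d : ℝ) := by
  classical
  rcases Nat.eq_zero_or_pos w with rfl | hw
  · have h1 : C.card ≤ 1 := card_le_one.2 fun x _ y _ => by
      funext b i
      exact i.elim0
    have h2 : (C.card : ℝ) ≤ 1 := by exact_mod_cast h1
    simpa using h2
  set D := (d + w - 1) / w with hD
  have hD1 : 1 ≤ D := by
    rw [hD, Nat.one_le_div_iff hw]
    omega
  have hdD : d ≤ w * D := by
    have := Nat.div_add_mod (d + w - 1) w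
    have h3 := Nat.mod_lt (d + w - 1) hw
    rw [← hD] at this
    omega
  have hDle : ∀ a, d ≤ w * a → D ≤ a := by
    intro a ha
    rw [hD, Nat.div_le_iff_le_mul_add_pred hw]
    omega
  obtain ⟨C₀, -, h2, h3⟩ := upper f C hD1 (fun b => (hf b).1) hC (by
    intro x hx y hy hxy
    exact hDle _ ((hCd x hx y hy hxy).trans (dist_le x y)))
  have h4 : C₀.card ≤ 1 := by
    refine card_le_one.2 fun x hx y hy => ?_
    by_contra hxy
    have h5 := h2 x hx y hy hxy
    have h6 : (univ.filter fun b => HasAffineSet (f b) ∧ x b ≠ y b) = ∅ :=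
      filter_eq_empty_iff.2 fun b _ h => (hf b).2 h.1
    rw [h6, card_empty] at h5
    omega
  have h5 : (C₀.card : ℝ) ≤ 1 := by exact_mod_cast h4
  have hdpos : (0 : ℝ) < d := by exact_mod_cast hd
  have hDpos : (0 : ℝ) < D := by exact_mod_cast hD1
  have hdD' : (d : ℝ) ≤ w * D := by exact_mod_cast hdD
  calc (C.card : ℝ) ≤ C₀.card * 2 ^ ((w * m : ℝ) / D) := h3
    _ ≤ 1 * 2 ^ ((w * m : ℝ) / D) := mul_le_mul_of_nonneg_right h5 (by positivity)
    _ = 2 ^ ((w * m : ℝ) / D) := one_mul _
    _ ≤ 2 ^ (w * (w * m) / d : ℝ) := by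
        refine Real.rpow_le_rpow_of_exponent_le (by norm_num) ?_
        rw [div_le_div_iff₀ hDpos hdpos]
        have h6 : (0 : ℝ) ≤ w * m := by positivity
        nlinarith

theorem stable (w : ℕ) {J : Type} [Finite J] (k : J → ℕ) {δ : ℝ} (hδ : 0 < δ) :
    ∃ θ : ℝ, 0 < θ ∧ ∀ (m : ℕ) (f : Fin m → Ops w k) (S : Finset (Fin m)) (C : Finset (Word m w)),
      (S.card : ℝ) ≤ θ * m → (∀ b, b ∉ S → Idempotent (f b) ∧ ¬ HasAffineSet (f b)) →
      NearlyClosed f (θ * m) C →
      (∀ x ∈ C, ∀ y ∈ C, x ≠ y → δ * (w * m) ≤ dist x y) → (C.card : ℝ) ≤ 2 ^ (w / δ) := by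
  classical
  rcases Nat.eq_zero_or_pos w with rfl | hw
  · refine ⟨1, one_pos, fun m f S C _ _ _ _ => ?_⟩
    have h1 : C.card ≤ 1 := card_le_one.2 fun x _ y _ => by
      funext b i
      exact i.elim0
    have h2 : (C.card : ℝ) ≤ 1 := by exact_mod_cast h1
    simpa using h2
  obtain ⟨θ, hθ, h⟩ := Helper90K9.AB.near_except (A := Block w) (J := J) (k := k)
    (Φ := {g : Ops w k // Idempotent g ∧ ¬ HasAffineSet g}) (fun φ => φ.1)
    (fun ι _ _ φ d hd C hC hCd => Helper90K9.AB.card_le_of_not_affine (fun i => (φ i).1)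
      (fun i => (φ i).2.1) (fun i => (φ i).2.2) hd C hC hCd) hδ
  refine ⟨θ, hθ, fun m f S C hS hf hC hCd => ?_⟩
  have h1 := h m f S C hS (fun i hi => ⟨⟨f i, hf i hi⟩, rfl⟩) ?_ ?_
  · rw [card_block, ← Real.rpow_natCast, ← Real.rpow_mul (by norm_num)] at h1
    refine h1.trans (le_of_eq ?_)
    congr 1
    ring
  · intro j x hx
    obtain ⟨y, hy, hye⟩ := hC j x hx
    refine ⟨y, hy, le_trans ?_ hye⟩
    have h2 := blockDist_le (fun b => f b j fun a => x a b) y
    unfold blockDist at h2
    exact_mod_cast h2
  · intro x hx y hy hxy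
    have h2 := hCd x hx y hy hxy
    have h3 := dist_le x y
    have h4 : (dist x y : ℝ) ≤ w * (blockDist x y : ℝ) := by exact_mod_cast h3
    have hw' : (0 : ℝ) < w := by exact_mod_cast hw
    have h5 : (w : ℝ) * (δ * m) ≤ w * (blockDist x y : ℝ) := by linarith
    have h6 := le_of_mul_le_mul_left h5 hw'
    unfold blockDist at h6
    exact h6

theorem lower {w : ℕ} {J : Type} {k : J → ℕ} (g : Ops w k) (hg : HasAffineSet g) (m : ℕ) {δ : ℝ}
    (h0 : 0 < δ) (h1 : δ ≤ 1 / 2) :
    ∃ C : Finset (Word m w), ClosedUnder (fun _ => g) C ∧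
      (∀ x ∈ C, ∀ y ∈ C, x ≠ y → δ * m ≤ dist x y) ∧ (2 : ℝ) ^ ((1 - H δ) * m) ≤ C.card := by
  classical
  obtain ⟨C, h2, h3, h4⟩ := Helper90K9.AB.exists_closed (f := g) hg m h0 h1
  refine ⟨C, h2, ?_, ?_⟩
  · intro x hx y hy hxy
    refine (h3 x hx y hy hxy).trans ?_
    have h5 := blockDist_le x y
    unfold blockDist at h5
    rw [Nat.card_eq_fintype_card, Fintype.card_subtype]
    exact_mod_cast h5
  · refine le_trans (le_of_eq ?_) h4
    rw [Real.rpow_def_of_pos (by norm_num)]
    congr 1
    have hl : Real.log 2 ≠ 0 := (Real.log_pos (by norm_num)).ne'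
    unfold H
    rw [Real.binEntropy, Real.log_inv, Real.log_inv, Real.logb, Real.logb]
    field_simp
    ring

theorem sharp {w : ℕ} {J : Type} {k : J → ℕ} (g : Ops w k) {m D : ℕ} (hD : 1 ≤ D)
    (hDm : D ∣ m) : ∃ C : Finset (Word m w), ClosedUnder (fun _ => g) C ∧
      (∀ x ∈ C, ∀ y ∈ C, x ≠ y → D ≤ blockDist x y) ∧ (C.card : ℝ) = 2 ^ ((w * m : ℝ) / D) := by
  classical
  obtain ⟨t, rfl⟩ := hDm
  -- the word with the blocks `u 0, …, u (t - 1)`, each of them `D` times
  let e : Fin (D * t) ≃ Fin D × Fin t := finProdFinEquiv.symm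
  let φ : (Fin t → Block w) → Word (D * t) w := fun u b => u (e b).2
  have hφ : ∀ u v, u ≠ v → D ≤ blockDist (φ u) (φ v) := by
    intro u v huv
    obtain ⟨i, hi⟩ := Function.ne_iff.1 huv
    have h1 : ((univ : Finset (Fin D)).map
        ⟨fun a => e.symm (a, i), fun a a' h => (Prod.mk.inj (e.symm.injective h)).1⟩).card = D := by
      rw [card_map, card_univ, Fintype.card_fin]
    unfold blockDist
    refine h1.symm.le.trans (card_le_card fun b hb => ?_)
    rw [mem_map] at hb
    obtain ⟨a, _, rfl⟩ := hb
    rw [mem_filter]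
    refine ⟨mem_univ _, ?_⟩
    change u (e (e.symm (a, i))).2 ≠ v (e (e.symm (a, i))).2
    rw [Equiv.apply_symm_apply]
    exact hi
  have hinj : Function.Injective φ := by
    intro u v h
    by_contra huv
    have h1 := hφ u v huv
    rw [h] at h1
    unfold blockDist at h1
    simp at h1
    omega
  refine ⟨univ.image φ, ?_, ?_, ?_⟩
  · intro j x hx
    have hx' : ∀ a, ∃ u, φ u = x a := by
      intro a
      obtain ⟨u, _, hu⟩ := mem_image.1 (hx a)
      exact ⟨u, hu⟩
    choose u hu using hx'
    refine mem_image.2 ⟨fun i => g j fun a => u a i, mem_univ _, ?_⟩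
    funext b
    have h1 : (fun a => x a b) = fun a => φ (u a) b := by
      funext a
      rw [hu a]
    change g j (fun a => u a (e b).2) = g j (fun a => x a b)
    rw [h1]
  · intro x hx y hy hxy
    obtain ⟨u, _, rfl⟩ := mem_image.1 hx
    obtain ⟨v, _, rfl⟩ := mem_image.1 hy
    exact hφ u v fun h => hxy (by rw [h])
  · rw [card_image_of_injective _ hinj, card_univ, Fintype.card_fun, Fintype.card_fin,
      Nat.cast_pow, card_block, ← pow_mul, ← Real.rpow_natCast]
    congr 1
    have hDpos : (D : ℝ) ≠ 0 := by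
      have : 0 < D := hD
      positivity
    push_cast
    field_simp

/-- weak near-unanimity operations of consecutive arities with the same binary minor: there is
no affine set -/
theorem no_affine_set {w : ℕ} {J : Type} {k : J → ℕ} (g : Ops w k) (hg : Idempotent g)
    (j j' : J) (hk : k j' = k j + 1) (hj : ∀ x y a a', g j (Function.update (fun _ => x) a y) =
      g j' (Function.update (fun _ => x) a' y)) : ¬ HasAffineSet g := by
  classical
  rintro ⟨p, s, φ, hp, hs, hφ, hM⟩
  haveI : Fact p.Prime := ⟨hp⟩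
  obtain ⟨M, hM1⟩ := hM j
  obtain ⟨M', hM2⟩ := hM j'
  have hone : ∀ x, ∑ a, (M a).mulVec x = x := fun x => hφ (by rw [← hM1 fun _ => x, hg])
  have hone' : ∀ x, ∑ a, (M' a).mulVec x = x := fun x => hφ (by rw [← hM2 fun _ => x, hg])
  have hup : ∀ {r : ℕ} (L : Fin r → Matrix (Fin s) (Fin s) (ZMod p)) (a : Fin r) (y),
      ∑ b, (L b).mulVec (Function.update (fun _ => (0 : Fin s → ZMod p)) a y b) =
        (L a).mulVec y := by
    intro r L a y
    rw [sum_eq_single a]
    · rw [Function.update_self]
    · intro b _ hb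
      rw [Function.update_of_ne hb, Matrix.mulVec_zero]
    · intro h
      exact absurd (mem_univ _) h
  have heq : ∀ a a' y, (M a).mulVec y = (M' a').mulVec y := by
    intro a a' y
    apply hφ
    have h1 := hj (φ 0) (φ y) a a'
    have e1 : ∀ {r : ℕ} (a : Fin r), Function.update (fun _ => φ 0) a (φ y) =
        fun b => φ (Function.update (fun _ => (0 : Fin s → ZMod p)) a y b) := by
      intro r a
      funext b
      by_cases hb : b = a
      · subst hb
        simp
      · rw [Function.update_of_ne hb, Function.update_of_ne hb]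
    rw [e1, e1, hM1, hM2, hup, hup] at h1
    exact h1
  -- the vector `e`
  set e : Fin s → ZMod p := fun _ => 1 with he
  have he0 : e ≠ 0 := fun h => one_ne_zero (congrFun h ⟨0, hs⟩)
  have a₀' : Fin (k j') := ⟨0, by omega⟩
  have h1 : ∑ a, (M a).mulVec e = (k j : ZMod p) • (M' a₀').mulVec e := by
    rw [sum_congr rfl fun a _ => heq a a₀' e, sum_const, card_univ, Fintype.card_fin,
      Nat.cast_smul_eq_nsmul]
  rcases Nat.eq_zero_or_pos (k j) with h0 | h0
  · rw [hone, h0, Nat.cast_zero, zero_smul] at h1
    exact he0 h1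
  · have a₀ : Fin (k j) := ⟨0, h0⟩
    have h2 : ∑ a, (M' a).mulVec e = (k j' : ZMod p) • (M' a₀').mulVec e := by
      rw [sum_congr rfl fun a _ => (heq a₀ a e).symm.trans (heq a₀ a₀' e), sum_const, card_univ,
        Fintype.card_fin, Nat.cast_smul_eq_nsmul]
    rw [hone', hk] at h2
    push_cast at h2
    rw [hone] at h1
    rw [add_smul, one_smul, ← h1] at h2
    have h3 : (M' a₀').mulVec e = 0 := by
      have := h2.symm
      simpa using this
    rw [h3, smul_zero] at h1
    exact he0 h1

/-- a family of idempotent operations has good codes if and only if it has an affine set -/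
theorem criterion {w : ℕ} {J : Type} {k : J → ℕ} (g : Ops w k) (hg : Idempotent g) :
    HasAffineSet g ↔ ∃ δ > (0 : ℝ), ∀ K : ℕ, ∃ (m : ℕ) (C : Finset (Word m w)),
      ClosedUnder (fun _ => g) C ∧ (∀ x ∈ C, ∀ y ∈ C, x ≠ y → δ * (w * m) ≤ dist x y) ∧
      K ≤ C.card := by
  classical
  constructor
  · intro h
    have hw : 0 < w := by
      rcases Nat.eq_zero_or_pos w with rfl | hw
      · obtain ⟨p, s, φ, hp, hs, hφ, -⟩ := h
        haveI : Fact p.Prime := ⟨hp⟩
        have h1 : φ (fun _ => 1) = φ (fun _ => 0) := by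
          funext i
          exact i.elim0
        exact absurd (congrFun (hφ h1) ⟨0, hs⟩) one_ne_zero
      · exact hw
    have hw' : (0 : ℝ) < w := by exact_mod_cast hw
    have hH : H (1 / 4) < 1 := by
      have h1 := Real.binEntropy_lt_log_two (p := 1 / 4) |>.2 (by norm_num)
      have h2 : H (1 / 4) = Real.binEntropy (1 / 4) / Real.log 2 := by
        unfold H
        rw [Real.binEntropy, Real.log_inv, Real.log_inv, Real.logb, Real.logb]
        ring
      rw [h2, div_lt_one (Real.log_pos (by norm_num))]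
      exact h1
    refine ⟨1 / (4 * w), by positivity, fun K => ?_⟩
    obtain ⟨m, hm⟩ : ∃ m : ℕ, (K : ℝ) ≤ (2 : ℝ) ^ ((1 - H (1 / 4)) * m) := by
      have hbase : 1 < (2 : ℝ) ^ (1 - H (1 / 4)) := Real.one_lt_rpow (by norm_num) (by linarith)
      obtain ⟨m, hm⟩ := pow_unbounded_of_one_lt (K : ℝ) hbase
      refine ⟨m, hm.le.trans (le_of_eq ?_)⟩
      rw [← Real.rpow_natCast, ← Real.rpow_mul (by norm_num)]
    obtain ⟨C, h1, h2, h3⟩ := lower g h m (δ := 1 / 4) (by norm_num) (by norm_num)
    refine ⟨m, C, h1, ?_, by exact_mod_cast hm.trans h3⟩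
    intro x hx y hy hxy
    refine le_trans (le_of_eq ?_) (h2 x hx y hy hxy)
    field_simp
  · rintro ⟨δ, hδ, h⟩
    by_contra hna
    obtain ⟨K, hK⟩ := exists_nat_gt ((2 : ℝ) ^ (w / δ : ℝ))
    obtain ⟨m, C, h1, h2, h3⟩ := h K
    have h4 : (K : ℝ) ≤ C.card := by exact_mod_cast h3
    have hone : (1 : ℝ) ≤ (2 : ℝ) ^ (w / δ : ℝ) := Real.one_le_rpow (by norm_num) (by positivity)
    rcases Nat.eq_zero_or_pos (w * m) with hwm | hwm
    · -- one word
      have h5 : C.card ≤ 1 := card_le_one.2 fun x _ y _ => by
        rcases Nat.mul_eq_zero.1 hwm with h0 | h0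
        · subst h0
          funext b i
          exact i.elim0
        · subst h0
          funext b
          exact b.elim0
      have h6 : (C.card : ℝ) ≤ 1 := by exact_mod_cast h5
      linarith
    · have hwm' : (0 : ℝ) < w * m := by exact_mod_cast hwm
      have hd1 : 1 ≤ ⌈δ * (w * m)⌉₊ := Nat.ceil_pos.2 (by positivity)
      have h5 := upper_bits (d := ⌈δ * (w * m)⌉₊) (fun _ => g) C hd1 (fun _ => ⟨hg, hna⟩) h1
        (fun x hx y hy hxy => Nat.ceil_le.2 (h2 x hx y hy hxy))
      have h6 : (2 : ℝ) ^ (w * (w * m) / (⌈δ * (w * m)⌉₊ : ℕ) : ℝ) ≤ (2 : ℝ) ^ (w / δ : ℝ) := by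
        refine Real.rpow_le_rpow_of_exponent_le (by norm_num) ?_
        rw [div_le_div_iff₀ (by exact_mod_cast hd1) hδ]
        have h7 := Nat.le_ceil (δ * (w * m))
        have h8 : (0 : ℝ) ≤ w := Nat.cast_nonneg _
        nlinarith
      linarith

open Classical in
/-- The sizes of the codes closed under idempotent operations on blocks: the criterion for good
codes, the upper bound and its sharpness, the bound for binary distances, its stability, and the
construction of good codes. -/
theorem result :
    -- the criterion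
    (∀ (w : ℕ) (J : Type) (k : J → ℕ) (g : Ops w k), Idempotent g →
      (HasAffineSet g ↔ ∃ δ > (0 : ℝ), ∀ K : ℕ, ∃ (m : ℕ) (C : Finset (Word m w)),
        ClosedUnder (fun _ => g) C ∧ (∀ x ∈ C, ∀ y ∈ C, x ≠ y → δ * (w * m) ≤ dist x y) ∧
        K ≤ C.card)) ∧
    -- the upper bound: words in `C₀` differ in at least `D` blocks with affine sets
    (∀ (w m D : ℕ) (J : Type) (k : J → ℕ) (f : Fin m → Ops w k) (C : Finset (Word m w)),
      1 ≤ D → (∀ b, Idempotent (f b)) → ClosedUnder f C →
      (∀ x ∈ C, ∀ y ∈ C, x ≠ y → D ≤ blockDist x y) →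
      ∃ C₀ ⊆ C, (∀ x ∈ C₀, ∀ y ∈ C₀, x ≠ y →
        D ≤ (univ.filter fun b => HasAffineSet (f b) ∧ x b ≠ y b).card) ∧
        (C.card : ℝ) ≤ C₀.card * 2 ^ ((w * m : ℝ) / D)) ∧
    -- no affine sets: binary distance
    (∀ (w m d : ℕ) (J : Type) (k : J → ℕ) (f : Fin m → Ops w k) (C : Finset (Word m w)),
      1 ≤ d → (∀ b, Idempotent (f b) ∧ ¬ HasAffineSet (f b)) → ClosedUnder f C →
      (∀ x ∈ C, ∀ y ∈ C, x ≠ y → d ≤ dist x y) →
      (C.card : ℝ) ≤ 2 ^ (w * (w * m) / d : ℝ)) ∧
    -- sharpness
    (∀ (w m D : ℕ) (J : Type) (k : J → ℕ) (g : Ops w k), 1 ≤ D → D ∣ m →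
      ∃ C : Finset (Word m w), ClosedUnder (fun _ => g) C ∧
        (∀ x ∈ C, ∀ y ∈ C, x ≠ y → D ≤ blockDist x y) ∧
        (C.card : ℝ) = 2 ^ ((w * m : ℝ) / D)) ∧
    -- stability
    (∀ (w : ℕ) (J : Type) (_ : Finite J) (k : J → ℕ) (δ : ℝ), 0 < δ →
      ∃ θ : ℝ, 0 < θ ∧ ∀ (m : ℕ) (f : Fin m → Ops w k) (S : Finset (Fin m))
        (C : Finset (Word m w)), (S.card : ℝ) ≤ θ * m →
        (∀ b, b ∉ S → Idempotent (f b) ∧ ¬ HasAffineSet (f b)) → NearlyClosed f (θ * m) C →
        (∀ x ∈ C, ∀ y ∈ C, x ≠ y → δ * (w * m) ≤ dist x y) → (C.card : ℝ) ≤ 2 ^ (w / δ)) ∧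
    -- good codes
    (∀ (w : ℕ) (J : Type) (k : J → ℕ) (g : Ops w k), HasAffineSet g → ∀ (m : ℕ) (δ : ℝ),
      0 < δ → δ ≤ 1 / 2 → ∃ C : Finset (Word m w), ClosedUnder (fun _ => g) C ∧
        (∀ x ∈ C, ∀ y ∈ C, x ≠ y → δ * m ≤ dist x y) ∧ (2 : ℝ) ^ ((1 - H δ) * m) ≤ C.card) := by
  refine ⟨?_, ?_, ?_, ?_, ?_, ?_⟩
  · intro w J k g hg
    exact criterion g hg
  · intro w m D J k f C hD hf hC hCd
    exact upper f C hD hf hC hCd
  · intro w m d J k f C hd hf hC hCd
    exact upper_bits f C hd hf hC hCd
  · intro w m D J k g hD hDm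
    exact sharp g hD hDm
  · intro w J _ k δ hδ
    exact stable w k hδ
  · intro w J k g hg m δ h0 h1
    exact lower g hg m h0 h1

end Pool.Agent.Results.MP_0430e4_lc.BlockOperations
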