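import Pool.Agent.Helper90K9.CP.Sharp
import Pool.Agent.Helper90K9.CP.Asym
import Pool.Agent.Helper90K9.CP.Near
import Pool.Agent.Helper62K9.NPe

/-!
# Linear codes are optimal among the codes with a coordinatewise operation

Let `f = (f_1, …, f_n)` be operations `f_i : {0,1}^k → {0,1}`, one for every coordinate and
arbitrary.  A code `C ⊆ {0,1}^n` is closed under `f` if for all words `c_1, …, c_k` of `C` the word
whose `i`-th entry is `f_i (c_1(i), …, c_k(i))` belongs to `C` again.  (Linear codes and their
cosets, direct sums of such codes with arbitrary codes, solution sets of Horn formulas, of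
2-CNFs, … are closed under some `f`.)  Let

* `E` be the set of the coordinates at which `f_i` depends on at most one variable,
* `P` the set of the coordinates at which `f_i` is affine over `F_2` and depends on at least two
  variables,
* `Q` the set of the coordinates at which `f_i` is not affine.

**Theorem.**  If `C` has minimum distance at least `d ≥ 1` and is closed under `f`, then
`|C| ≤ A(|E|, d) · A_lin(|P|, d) · 2 ^ ⌊|Q| / d⌋`, where `A` and `A_lin` are the largest sizes of
codes and of linear codes.  For all `n`, `d`, `E`, `P` there are `f` and `C` with equality.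

* Hence `|C| ≤ A(|E|, d) · A_lin(n - |E|, d)`, and `|C| ≤ A_lin(n, d)` if every `f_i` depends on at
  least two variables: EXACTLY, for all `n` and `d`, no code with a coordinatewise operation of
  this kind is larger than the best linear code.
* A code which is a union of `L` codes of this kind has at most `L · A_lin(n, d)` words.
* Asymptotically, for `d = ⌈δ n⌉`, the code has at most
  `2 ^ (R(δ) |E| + R_lin(δ) |P| + o(n))` words.
* Hence good codes are rigid.  For `0 < δ < 1/2` and `ε > 0` there is `η > 0` such that every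
  operation of any arity under which a code with at least `2 ^ ((R(δ) - η) n)` words is closed is
  affine at all but `ε n` coordinates; and if `R_lin(δ) < R(δ)`, then it depends on at most one
  variable at all but `ε n` coordinates.
* Stability under errors.  For all `k` and `δ > 0` there is `θ > 0` such that a code of relative
  distance `δ` which is closed up to `θ n` errors under a coordinatewise operation of arity `k` that
  is not affine at all but `θ n` coordinates has at most `2 ^ (1 / δ)` words.  If `f` is the same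
  at all coordinates and not affine, then there is `K` such that a code of minimum distance at
  least `d` that is closed up to `e` errors has at most `2 ^ ⌊2 n / d⌋` words if `K e n ≤ d ^ 2`
  (this part is due to helper62, `Pool.Agent.Helper62K9.NPe`).

The proof decomposes `C`.  The operations with a constant diagonal give restriction maps which
split the code into atoms on which `f` is uniform.  If `f` is idempotent and some binary minor is a
conjunction or a disjunction at the coordinates of a set `S₁` and a projection elsewhere, one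
moves all words to the extreme word on `S₁` and loses only a factor `2 ^ ⌊|S₁| / d⌋`.  Otherwise
all `f_i` are self-dual, and two different ones split the code as a product.
-/

set_option autoImplicit false

open Filter Finset

namespace Pool.Agent.Results.MP_0430e4_lc.CoordinatewiseOperations

/-- minimum distance at least `d` -/
def IsCode {n : ℕ} (d : ℕ) (C : Finset (Fin n → Bool)) : Prop :=
  ∀ x ∈ C, ∀ y ∈ C, x ≠ y → d ≤ hammingDist x y

/-- linear codes over the field with two elements -/
def IsLinear {n : ℕ} (C : Finset (Fin n → Bool)) : Prop :=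
  (fun _ => false) ∈ C ∧ ∀ x ∈ C, ∀ y ∈ C, (fun i => x i ^^ y i) ∈ C

/-- `A(n, d)`: the largest size of a code of length `n` with minimum distance at least `d` -/
noncomputable def A (n d : ℕ) : ℕ :=
  sSup {m | ∃ C : Finset (Fin n → Bool), IsCode d C ∧ C.card = m}

/-- `A_lin(n, d)`: the largest size of a linear code of length `n` with minimum distance at least
`d` -/
noncomputable def ALin (n d : ℕ) : ℕ :=
  sSup {m | ∃ C : Finset (Fin n → Bool), IsLinear C ∧ IsCode d C ∧ C.card = m}

/-- `R(δ) = limsup (1/n) log₂ A(n, ⌈δ n⌉)` -/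
noncomputable def R (δ : ℝ) : ℝ :=
  limsup (fun n : ℕ => Real.logb 2 (A n ⌈δ * n⌉₊) / n) atTop

/-- `R_lin(δ) = limsup (1/n) log₂ A_lin(n, ⌈δ n⌉)` -/
noncomputable def RLin (δ : ℝ) : ℝ :=
  limsup (fun n : ℕ => Real.logb 2 (ALin n ⌈δ * n⌉₊) / n) atTop

/-- `C` is closed under the operation which is `f i` at the coordinate `i` -/
def ClosedUnder {n k : ℕ} (f : Fin n → (Fin k → Bool) → Bool) (C : Finset (Fin n → Bool)) : Prop :=
  ∀ c : Fin k → (Fin n → Bool), (∀ j, c j ∈ C) → (fun i => f i (fun j => c j i)) ∈ C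

/-- `C` is closed up to `e` errors under the operation which is `f i` at the coordinate `i` -/
def NearClosed {n k : ℕ} (e : ℕ) (f : Fin n → (Fin k → Bool) → Bool)
    (C : Finset (Fin n → Bool)) : Prop :=
  ∀ c : Fin k → (Fin n → Bool), (∀ j, c j ∈ C) →
    ∃ y ∈ C, hammingDist y (fun i => f i (fun j => c j i)) ≤ e

/-- `g` is affine over the field with two elements: `g (x + y + z) = g x + g y + g z` -/
def IsAffine {k : ℕ} (g : (Fin k → Bool) → Bool) : Prop :=
  ∀ x y z : Fin k → Bool, g (fun i => (x i ^^ y i) ^^ z i) = ((g x ^^ g y) ^^ g z)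

/-- `g` depends on its `i`-th variable: changing it changes the value for some arguments -/
def DependsOn {k : ℕ} (g : (Fin k → Bool) → Bool) (i : Fin k) : Prop :=
  ∃ x : Fin k → Bool, g (Function.update x i (!x i)) ≠ g x

/-- `g` depends on at most one variable -/
def AtMostOne {k : ℕ} (g : (Fin k → Bool) → Bool) : Prop :=
  ∀ i j, DependsOn g i → DependsOn g j → i = j

section

variable {n k : ℕ}

open Classical in
/-- the coordinates at which `f` depends on at most one variable -/
noncomputable def E (f : Fin n → (Fin k → Bool) → Bool) : Finset (Fin n) :=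
  univ.filter fun i => AtMostOne (f i)

open Classical in
/-- the coordinates at which `f` is affine and depends on at least two variables -/
noncomputable def P (f : Fin n → (Fin k → Bool) → Bool) : Finset (Fin n) :=
  univ.filter fun i => IsAffine (f i) ∧ ¬ AtMostOne (f i)

open Classical in
/-- the coordinates at which `f` is not affine -/
noncomputable def Q (f : Fin n → (Fin k → Bool) → Bool) : Finset (Fin n) :=
  univ.filter fun i => ¬ IsAffine (f i)

lemma E_eq (f : Fin n → (Fin k → Bool) → Bool) : E f = Helper90K9.CP.E f := by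
  ext i
  simp only [E, Helper90K9.CP.E, mem_filter, mem_univ, true_and]
  rfl

lemma P_eq (f : Fin n → (Fin k → Bool) → Bool) : P f = Helper90K9.CP.P f := by
  ext i
  simp only [P, Helper90K9.CP.P, mem_filter, mem_univ, true_and]
  rfl

lemma Q_eq (f : Fin n → (Fin k → Bool) → Bool) : Q f = Helper90K9.CP.Q f := by
  ext i
  simp only [Q, Helper90K9.CP.Q, mem_filter, mem_univ, true_and]
  rfl

end

theorem bound {n d k : ℕ} (f : Fin n → (Fin k → Bool) → Bool) (C : Finset (Fin n → Bool))
    (hd : 1 ≤ d) (hC : IsCode d C) (hf : ClosedUnder f C) :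
    C.card ≤ A (E f).card d * ALin (P f).card d * 2 ^ ((Q f).card / d) ∧
      C.card ≤ A (E f).card d * ALin (n - (E f).card) d := by
  rw [E_eq, P_eq, Q_eq]
  exact ⟨Helper90K9.CP.finite_bound hd f C hC hf, Helper90K9.CP.linear_bound hd f C hC hf⟩

theorem sharp (n d : ℕ) (S T : Finset (Fin n)) (hd : 1 ≤ d) (hST : Disjoint S T) :
    ∃ (f : Fin n → (Fin 3 → Bool) → Bool) (C : Finset (Fin n → Bool)),
      E f = S ∧ P f = T ∧ Q f = (S ∪ T)ᶜ ∧ IsCode d C ∧ ClosedUnder f C ∧
      C.card = A (E f).card d * ALin (P f).card d * 2 ^ ((Q f).card / d) := by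
  classical
  obtain ⟨f, C, h1, h2, h3, h4⟩ := Helper90K9.CP.sharp hd
    (fun i : Fin n => if i ∈ S then (0 : Fin 3) else if i ∈ T then 1 else 2)
  have hE : E f = S := by
    ext i
    simp only [E, mem_filter, mem_univ, true_and]
    obtain ⟨h5, h6, h7⟩ := h1 i
    constructor
    · intro h
      by_contra hi
      by_cases hiT : i ∈ T
      · exact (h6 (by simp [hi, hiT])).2 h
      · exact h7 (by simp [hi, hiT]) (Helper90K9.CP.AtMostOne.isAffine h)
    · intro hi
      exact h5 (by simp [hi])
  have hP : P f = T := by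
    ext i
    simp only [P, mem_filter, mem_univ, true_and]
    obtain ⟨h5, h6, h7⟩ := h1 i
    constructor
    · intro h
      by_contra hi
      by_cases hiS : i ∈ S
      · exact h.2 (h5 (by simp [hiS]))
      · exact h7 (by simp [hi, hiS]) h.1
    · intro hi
      have hiS : i ∉ S := fun h => disjoint_left.1 hST h hi
      exact h6 (by simp [hi, hiS])
  have hQ : Q f = (S ∪ T)ᶜ := by
    ext i
    simp only [Q, mem_filter, mem_univ, true_and, mem_compl, mem_union]
    obtain ⟨h5, h6, h7⟩ := h1 i
    constructor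
    · rintro h (hi | hi)
      · exact h (Helper90K9.CP.AtMostOne.isAffine (h5 (by simp [hi])))
      · by_cases hiS : i ∈ S
        · exact h (Helper90K9.CP.AtMostOne.isAffine (h5 (by simp [hiS])))
        · exact h (h6 (by simp [hi, hiS])).1
    · intro h
      push Not at h
      exact h7 (by simp [h.1, h.2])
  refine ⟨f, C, hE, hP, hQ, h2, h3, ?_⟩
  rw [h4, hE, hP, hQ]
  have e0 : (univ.filter fun i : Fin n =>
      (if i ∈ S then (0 : Fin 3) else if i ∈ T then 1 else 2) = 0) = S := by
    ext i
    by_cases hi : i ∈ S <;> by_cases hiT : i ∈ T <;> simp [hi, hiT]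
  have e1 : (univ.filter fun i : Fin n =>
      (if i ∈ S then (0 : Fin 3) else if i ∈ T then 1 else 2) = 1) = T := by
    ext i
    by_cases hi : i ∈ S
    · have hiT : i ∉ T := fun h => disjoint_left.1 hST hi h
      simp [hi, hiT]
    · by_cases hiT : i ∈ T <;> simp [hi, hiT]
  have e2 : (univ.filter fun i : Fin n =>
      (if i ∈ S then (0 : Fin 3) else if i ∈ T then 1 else 2) = 2) = (S ∪ T)ᶜ := by
    ext i
    by_cases hi : i ∈ S <;> by_cases hiT : i ∈ T <;> simp [hi, hiT]
  rw [e0, e1, e2]
  rfl

theorem covering (n d L : ℕ) (hd : 1 ≤ d) (C : Finset (Fin n → Bool)) (hC : IsCode d C)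
    (D : Fin L → Finset (Fin n → Bool)) (hD : C = univ.biUnion D)
    (hf : ∀ l, ∃ (k : ℕ) (f : Fin n → (Fin k → Bool) → Bool), ClosedUnder f (D l) ∧ E f = ∅) :
    C.card ≤ L * ALin n d := by
  classical
  have h1 : ∀ l, (D l).card ≤ ALin n d := by
    intro l
    obtain ⟨k, f, h2, h3⟩ := hf l
    have hsub : D l ⊆ C := by
      rw [hD]
      exact subset_biUnion_of_mem D (mem_univ l)
    have h4 := (bound f (D l) hd (fun x hx y hy => hC x (hsub hx) y (hsub hy)) h2).2
    rw [h3, card_empty, Nat.sub_zero] at h4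
    have h5 : A 0 d ≤ 1 := (Helper90K9.CP.A_le_two_pow 0 d).trans (by norm_num)
    calc (D l).card ≤ A 0 d * ALin n d := h4
      _ ≤ 1 * ALin n d := Nat.mul_le_mul_right _ h5
      _ = ALin n d := one_mul _
  calc C.card ≤ ∑ l : Fin L, (D l).card := by
        rw [hD]
        exact card_biUnion_le
    _ ≤ ∑ _l : Fin L, ALin n d := sum_le_sum fun l _ => h1 l
    _ = L * ALin n d := by simp

theorem stable (k : ℕ) {δ : ℝ} (hδ : 0 < δ) : ∃ θ > (0 : ℝ), ∀ (n e : ℕ)
    (f : Fin n → (Fin k → Bool) → Bool) (C : Finset (Fin n → Bool)),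
    (((Q f)ᶜ.card : ℕ) : ℝ) ≤ θ * n → (e : ℝ) ≤ θ * n → NearClosed e f C → IsCode ⌈δ * n⌉₊ C →
    (C.card : ℝ) ≤ 2 ^ (1 / δ) := by
  classical
  obtain ⟨θ, hθ, h⟩ := Helper90K9.CP.near_bool k hδ
  refine ⟨θ, hθ, fun n e f C hQ he hf hC => h n f C ?_ ?_ ?_⟩
  · refine le_trans (le_of_eq ?_) hQ
    congr 2
    ext i
    simp only [Q, mem_compl, mem_filter, mem_univ, true_and, not_not]
    rfl
  · intro c hc
    obtain ⟨y, hy, hye⟩ := hf c hc
    refine ⟨y, hy, le_trans ?_ he⟩
    rw [hammingDist_comm]
    exact_mod_cast hye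
  · intro x hx y hy hxy
    exact Nat.ceil_le.1 (hC x hx y hy hxy)

/-- The largest size of a code with minimum distance at least `d` which is closed under a
coordinatewise operation, its sharpness, the consequences for codes with many words, and the
stability under errors. -/
theorem result :
    -- the bound
    (∀ (n d k : ℕ) (f : Fin n → (Fin k → Bool) → Bool) (C : Finset (Fin n → Bool)),
      1 ≤ d → IsCode d C → ClosedUnder f C →
        C.card ≤ A (E f).card d * ALin (P f).card d * 2 ^ ((Q f).card / d) ∧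
          C.card ≤ A (E f).card d * ALin (n - (E f).card) d) ∧
    -- it is sharp
    (∀ (n d : ℕ) (S T : Finset (Fin n)), 1 ≤ d → Disjoint S T →
      ∃ (f : Fin n → (Fin 3 → Bool) → Bool) (C : Finset (Fin n → Bool)),
        E f = S ∧ P f = T ∧ Q f = (S ∪ T)ᶜ ∧ IsCode d C ∧ ClosedUnder f C ∧
        C.card = A (E f).card d * ALin (P f).card d * 2 ^ ((Q f).card / d)) ∧
    -- unions of `L` codes closed under operations depending on at least two variables everywhere
    (∀ (n d L : ℕ) (C : Finset (Fin n → Bool)) (D : Fin L → Finset (Fin n → Bool)),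
      1 ≤ d → IsCode d C → C = univ.biUnion D →
      (∀ l, ∃ (k : ℕ) (f : Fin n → (Fin k → Bool) → Bool), ClosedUnder f (D l) ∧ E f = ∅) →
      C.card ≤ L * ALin n d) ∧
    -- asymptotically
    (∀ δ : ℝ, 0 < δ → ∀ η > (0 : ℝ), ∃ n₀ : ℕ, ∀ n ≥ n₀, ∀ (k : ℕ)
      (f : Fin n → (Fin k → Bool) → Bool) (C : Finset (Fin n → Bool)),
      IsCode ⌈δ * n⌉₊ C → ClosedUnder f C →
      (C.card : ℝ) ≤ 2 ^ (R δ * (E f).card + RLin δ * (P f).card + η * n)) ∧
    -- rigidity
    (∀ δ : ℝ, 0 < δ → δ < 1 / 2 → ∀ ε > (0 : ℝ), ∃ η > (0 : ℝ), ∃ n₀ : ℕ, ∀ n ≥ n₀, ∀ (k : ℕ)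
      (f : Fin n → (Fin k → Bool) → Bool) (C : Finset (Fin n → Bool)),
      IsCode ⌈δ * n⌉₊ C → ClosedUnder f C → (2 : ℝ) ^ ((R δ - η) * n) ≤ C.card →
      ((Q f).card : ℝ) ≤ ε * n ∧ (RLin δ < R δ → ((P f).card : ℝ) + (Q f).card ≤ ε * n)) ∧
    -- stability: a linear number of errors
    (∀ (k : ℕ) (δ : ℝ), 0 < δ → ∃ θ > (0 : ℝ), ∀ (n e : ℕ) (f : Fin n → (Fin k → Bool) → Bool)
      (C : Finset (Fin n → Bool)), (((Q f)ᶜ.card : ℕ) : ℝ) ≤ θ * n → (e : ℝ) ≤ θ * n →
      NearClosed e f C → IsCode ⌈δ * n⌉₊ C → (C.card : ℝ) ≤ 2 ^ (1 / δ)) ∧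
    -- stability: small distances, one operation
    (∀ (k : ℕ) (g : (Fin k → Bool) → Bool), ¬ IsAffine g → ∃ K : ℕ, ∀ (n d e : ℕ)
      (C : Finset (Fin n → Bool)), 1 ≤ d → IsCode d C → NearClosed e (fun _ => g) C →
      K * e * n ≤ d ^ 2 → C.card ≤ 2 ^ (2 * n / d)) := by
  refine ⟨fun n d k f C hd hC hf => bound f C hd hC hf, sharp, ?_, ?_, ?_, ?_, ?_⟩
  · intro n d L C D hd hC hD hf
    exact covering n d L hd C hC D hD hf
  · intro δ hδ η hη
    obtain ⟨n₀, h⟩ := Helper90K9.CP.asym_bound hδ hη
    refine ⟨n₀, fun n hn k f C hC hf => ?_⟩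
    rw [E_eq, P_eq]
    exact h n hn k f C hC hf
  · intro δ h0 h1 ε hε
    obtain ⟨η, hη, n₀, h⟩ := Helper90K9.CP.rigid h0 h1 hε
    refine ⟨η, hη, n₀, fun n hn k f C hC hf hbig => ?_⟩
    rw [P_eq, Q_eq]
    exact h n hn k f C hC hf hbig
  · intro k δ hδ
    exact stable k hδ
  · intro k g hg
    obtain ⟨K, h⟩ := Pool.Agent.Helper62K9.NP.near_bound g hg
    exact ⟨K, fun n d e C hd hC hf hK => h n d e C hd hC hf hK⟩

end Pool.Agent.Results.MP_0430e4_lc.CoordinatewiseOperations
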