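import Pool.Agent.Helper89K9.GV.Final

/-!
# MP_0430e4_lc: the bound of Gilbert and Varshamov and decoding of random errors

Let `0 < δ < 1/2`.  We compare `R(δ)` with the ability of codes with relative minimum distance `δ`
to correct random errors of density `δ` (twice the density of the errors which are corrected in
the worst case).  The equivocation of a code over the binary symmetric channel with crossover
probability `δ` is the conditional entropy of the sent word given the received word.

* Every code of length `n` with minimum distance at least `δ n` has equivocation at most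
  `B(n) + 4`, where `B(n) = G + ln ((1 - δ) / δ) √(n (G + 1) / (2 ln 2))` and
  `G = log₂ A(n, ⌈δ n⌉) - (1 - H(δ)) n` is the excess over the bound of Gilbert and Varshamov.
* Hence the largest rate `E(δ)` of the equivocation lies between `g = R(δ) - (1 - H(δ))` and
  `g + ln ((1 - δ) / δ) √(g / (2 ln 2))`.
* The bound of Gilbert and Varshamov is sharp, `R(δ) = 1 - H(δ)`, if and only if all codes with
  relative minimum distance `δ` have equivocation `o(n)`; if and only if they are list decodable
  up to the radius `δ n`, with subexponential lists for all but exponentially few pairs of a word of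
  the code and a word at distance at most `δ n`; if and only if they have subcodes of the same
  rate in which almost all errors of weight at most `δ n` are corrected.
* Codes about whose words the received word gives at most `(1 - H(δ) - κ) n` bits of information
  are exponentially smaller than the best codes, unless their rate exceeds `1 - H(δ)` by at least
  `2 ln 2 (κ / ln ((1 - δ) / δ))²`.  This applies to codes with linearly many independent parity
  checks of bounded weight (LDPC codes), for which we get a bound of the kind of Gallager's bound.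

The proof: if `I` is a code with minimum distance `d` and `N(I)` is the set of the words at distance
less than `d` from `I`, then `|I| / |N(I)| ≤ A(n, d) / 2^n`.  The logarithm of the probability of the
received word is a Lipschitz function, so it is concentrated by the inequality of McDiarmid, and
`N(I)` is small for the set `I` of the words with large equivocation.
-/

set_option autoImplicit false

open Filter Finset

namespace Pool.Agent.Results.MP_0430e4_lc.EquivocationCriterion

/-- `A(n,d)`: the largest size of a binary code of length `n` with minimum distance at least `d`. -/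
noncomputable def A (n d : ℕ) : ℕ :=
  sSup {k | ∃ C : Finset (Fin n → Bool),
    (∀ x ∈ C, ∀ y ∈ C, x ≠ y → d ≤ hammingDist x y) ∧ C.card = k}

/-- The asymptotic rate `R(δ) = limsup (1/n) log₂ A(n, ⌈δ n⌉)`. -/
noncomputable def R (δ : ℝ) : ℝ :=
  limsup (fun n : ℕ => Real.logb 2 (A n ⌈δ * n⌉₊) / n) atTop

/-- `liminf (1/n) log₂ A(n, ⌈δ n⌉)`. -/
noncomputable def Rlow (δ : ℝ) : ℝ :=
  liminf (fun n : ℕ => Real.logb 2 (A n ⌈δ * n⌉₊) / n) atTop

/-- The binary entropy function `H₂(x) = - x log₂ x - (1 - x) log₂ (1 - x)`. -/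
noncomputable def H (x : ℝ) : ℝ := -x * Real.logb 2 x - (1 - x) * Real.logb 2 (1 - x)

/-- `C` is a code with minimum distance at least `δ n`. -/
def IsCode (δ : ℝ) {n : ℕ} (C : Finset (Fin n → Bool)) : Prop :=
  ∀ x ∈ C, ∀ y ∈ C, x ≠ y → ⌈δ * n⌉₊ ≤ hammingDist x y

/-- The probability that the binary symmetric channel with crossover probability `δ` changes the
word `x` into the word `y`. -/
noncomputable def W (δ : ℝ) {n : ℕ} (x y : Fin n → Bool) : ℝ :=
  δ ^ hammingDist x y * (1 - δ) ^ (n - hammingDist x y)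

/-- `e(x)`: a random word of `C` is sent over the channel; the expectation of
`log₂ (1 / P(x | y))` when `x` was sent and `y` is received. -/
noncomputable def e (δ : ℝ) {n : ℕ} (C : Finset (Fin n → Bool)) (x : Fin n → Bool) : ℝ :=
  ∑ y, W δ x y * Real.logb 2 ((∑ z ∈ C, W δ z y) / W δ x y)

/-- The equivocation of the code: the conditional entropy (in bits) of the sent word given the
received word, for a random word of the code. -/
noncomputable def equivocation (δ : ℝ) {n : ℕ} (C : Finset (Fin n → Bool)) : ℝ :=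
  (∑ x ∈ C, e δ C x) / C.card

/-- The information (in bits) about the sent word in the received word. -/
noncomputable def information (δ : ℝ) {n : ℕ} (C : Finset (Fin n → Bool)) : ℝ :=
  Real.logb 2 C.card - equivocation δ C

/-- The largest equivocation of a code of length `n` with minimum distance at least `δ n`. -/
noncomputable def maxEquivocation (δ : ℝ) (n : ℕ) : ℝ :=
  sSup {r : ℝ | ∃ C : Finset (Fin n → Bool), C.Nonempty ∧ IsCode δ C ∧ r = equivocation δ C}

/-- `E(δ) = limsup (1/n) max equivocation`. -/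
noncomputable def E (δ : ℝ) : ℝ := limsup (fun n : ℕ => maxEquivocation δ n / n) atTop

/-- `liminf (1/n) max equivocation`. -/
noncomputable def Elow (δ : ℝ) : ℝ := liminf (fun n : ℕ => maxEquivocation δ n / n) atTop

/-- `G(n) = log₂ A(n, ⌈δ n⌉) - (1 - H(δ)) n`. -/
noncomputable def G (δ : ℝ) (n : ℕ) : ℝ := Real.logb 2 (A n ⌈δ * n⌉₊) - (1 - H δ) * n

/-- `B(n) = G(n) + ln ((1 - δ) / δ) √(n (G(n) + 1) / (2 ln 2))`. -/
noncomputable def B (δ : ℝ) (n : ℕ) : ℝ :=
  G δ n + Real.log ((1 - δ) / δ) * √(n * (G δ n + 1) / (2 * Real.log 2))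

/-- `φ(g) = g + ln ((1 - δ) / δ) √(g / (2 ln 2))`. -/
noncomputable def φ (δ g : ℝ) : ℝ := g + Real.log ((1 - δ) / δ) * √(g / (2 * Real.log 2))

/-- The ball with centre `x` and radius `δ n`. -/
noncomputable def ball (δ : ℝ) {n : ℕ} (x : Fin n → Bool) : Finset (Fin n → Bool) :=
  univ.filter fun y => (hammingDist x y : ℝ) ≤ δ * n

/-- The number of the words of `C` at distance at most `δ n` from `y`. -/
noncomputable def near (δ : ℝ) {n : ℕ} (C : Finset (Fin n → Bool)) (y : Fin n → Bool) : ℕ :=
  (C.filter fun x => (hammingDist x y : ℝ) ≤ δ * n).card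

/-- The pairs `(x, y)` with `x ∈ C` and `y` in the ball around `x`. -/
noncomputable def pairs (δ : ℝ) {n : ℕ} (C : Finset (Fin n → Bool)) :
    Finset ((Fin n → Bool) × (Fin n → Bool)) :=
  (C ×ˢ univ).filter fun p => (hammingDist p.1 p.2 : ℝ) ≤ δ * n

/-- List decoding: for every `ε > 0` there is `c > 0` such that for all long codes `C` with minimum
distance at least `δ n` all but a part `2 ^ (-c n)` of the pairs `(x, y)` have fewer than `2 ^ (ε n)`
words of `C` at distance at most `δ n` from `y`. -/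
def ListDecoding (δ : ℝ) : Prop :=
  ∀ ε : ℝ, 0 < ε → ∃ c : ℝ, 0 < c ∧ ∃ N : ℕ, ∀ n ≥ N, ∀ C : Finset (Fin n → Bool), IsCode δ C →
    (((pairs δ C).filter fun p => (2 : ℝ) ^ (ε * n) ≤ near δ C p.2).card : ℝ) ≤
      (2 : ℝ) ^ (-(c * n)) * (pairs δ C).card

/-- List decoding of the largest codes, in a weak form: for every `ε > 0` for all large `n` in the
codes with `A(n, ⌈δ n⌉)` words at least a part `2 ^ (-ε n)` of the pairs `(x, y)` have fewer than
`2 ^ (ε n)` words of `C` at distance at most `δ n` from `y`. -/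
def WeakListDecoding (δ : ℝ) : Prop :=
  ∀ ε : ℝ, 0 < ε → ∃ N : ℕ, ∀ n ≥ N, ∀ C : Finset (Fin n → Bool), IsCode δ C →
    C.card = A n ⌈δ * n⌉₊ → (2 : ℝ) ^ (-(ε * n)) * (pairs δ C).card ≤
      (((pairs δ C).filter fun p => (near δ C p.2 : ℝ) < (2 : ℝ) ^ (ε * n)).card : ℝ)

/-- Unique decoding of a subcode: for every `ε > 0` there is `c > 0` such that every long code `C`
with minimum distance at least `δ n` has a subcode `C'` with at least `2 ^ (-ε n) |C|` words, such
that for each word `x` of `C'` all but a part `2 ^ (-c n)` of the ball around `x` is outside the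
balls around the other words of `C'`. -/
def UniqueDecoding (δ : ℝ) : Prop :=
  ∀ ε : ℝ, 0 < ε → ∃ c : ℝ, 0 < c ∧ ∃ N : ℕ, ∀ n ≥ N, ∀ C : Finset (Fin n → Bool), IsCode δ C →
    ∃ C' ⊆ C, (2 : ℝ) ^ (-(ε * n)) * C.card ≤ C'.card ∧
      ∀ x ∈ C', (((ball δ x).filter fun y => ∃ x' ∈ C', x' ≠ x ∧ y ∈ ball δ x').card : ℝ) ≤
        (2 : ℝ) ^ (-(c * n)) * (ball δ x).card

/-- `0` or `1` modulo `2` -/
def bit (b : Bool) : ZMod 2 := if b then 1 else 0

/-- The words of `C` satisfy the parity equations `∑ i, h j i * x i = b j`, `j < r`, which are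
linearly independent. -/
def Satisfies {n r : ℕ} (h : Fin r → Fin n → ZMod 2) (b : Fin r → ZMod 2)
    (C : Finset (Fin n → Bool)) : Prop :=
  LinearIndependent (ZMod 2) h ∧ ∀ x ∈ C, ∀ j, ∑ i, h j i * bit (x i) = b j

/-- Each equation has at most `w` variables. -/
def RowWeight {n r : ℕ} (h : Fin r → Fin n → ZMod 2) (w : ℕ) : Prop :=
  ∀ j, (univ.filter fun i => h j i ≠ 0).card ≤ w

/-- `p(w) = (1 - (1 - 2 δ)^w) / 2`. -/
noncomputable def p (δ : ℝ) (w : ℕ) : ℝ := (1 - (1 - 2 * δ) ^ w) / 2

/-- The linear code with the parity checks `h`. -/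
noncomputable def linearCode {n r : ℕ} (h : Fin r → Fin n → ZMod 2) : Finset (Fin n → Bool) :=
  univ.filter fun x => ∀ j, ∑ i, h j i * bit (x i) = 0

/-! ### Comparison with the definitions of the helper files -/

open Pool.Agent.Helper89K9

lemma A_eq : A = ConstantWeightCriterion.A := rfl

lemma R_eq : R = ConstantWeightCriterion.R := rfl

lemma Rlow_eq : Rlow = ConstantWeightCriterion.Rlow := rfl

lemma H_eq : H = ConstantWeightCriterion.H := rfl

lemma W_eq (δ : ℝ) {n : ℕ} (x y : Fin n → Bool) : W δ x y = GV.kern δ x y :=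
  (GV.kern_eq δ x y).symm

lemma e_eq (δ : ℝ) {n : ℕ} (C : Finset (Fin n → Bool)) (x : Fin n → Bool) :
    e δ C x = GV.pe δ C x := by
  unfold e GV.pe GV.ex GV.mix
  simp only [W_eq]

lemma equivocation_eq (δ : ℝ) {n : ℕ} (C : Finset (Fin n → Bool)) :
    equivocation δ C = GV.eqv δ C := by
  unfold equivocation GV.eqv
  simp only [e_eq]

lemma maxEquivocation_eq (δ : ℝ) (n : ℕ) : maxEquivocation δ n = GV.maxEqv δ n := by
  unfold maxEquivocation GV.maxEqv
  simp only [equivocation_eq]
  rfl

lemma E_eq (δ : ℝ) : E δ = GV.E δ := by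
  unfold E GV.E
  simp only [maxEquivocation_eq]

lemma Elow_eq (δ : ℝ) : Elow δ = GV.Elow δ := by
  unfold Elow GV.Elow
  simp only [maxEquivocation_eq]

lemma B_eq (δ : ℝ) (n : ℕ) : B δ n = GV.bnd δ n := rfl

/-- **The criterion.** -/
theorem result (δ : ℝ) (h0 : 0 < δ) (h1 : δ < 1 / 2) :
    -- (1) the equivocation of each code
    (∀ n : ℕ, 1 ≤ n → ∀ C : Finset (Fin n → Bool), C.Nonempty → IsCode δ C →
      equivocation δ C ≤ B δ n + 4 ∧
      ∀ a : ℝ, ((C.filter fun x => B δ n + a ≤ e δ C x).card : ℝ) ≤ (2 : ℝ) ^ (1 - a) * C.card) ∧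
    -- (2) the rate of the equivocation and the excess over the Gilbert–Varshamov bound
    ((R δ - (1 - H δ) ≤ E δ ∧ E δ ≤ φ δ (R δ - (1 - H δ))) ∧
      (Rlow δ - (1 - H δ) ≤ Elow δ ∧ Elow δ ≤ φ δ (Rlow δ - (1 - H δ)))) ∧
    -- (3) sharpness of the bound of Gilbert and Varshamov
    List.TFAE [R δ = 1 - H δ, E δ = 0, ListDecoding δ, WeakListDecoding δ, UniqueDecoding δ] ∧
    -- (4) codes with little information
    (∀ κ θ : ℝ, 0 < κ → θ < 2 * Real.log 2 * (κ / Real.log ((1 - δ) / δ)) ^ 2 →
      ∃ c : ℝ, 0 < c ∧ ∃ N : ℕ, ∀ n ≥ N, ∀ C : Finset (Fin n → Bool), C.Nonempty → IsCode δ C →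
        information δ C ≤ (1 - H δ - κ) * n → (C.card : ℝ) < (2 : ℝ) ^ ((1 - H δ + θ) * n) →
          (C.card : ℝ) ≤ (2 : ℝ) ^ (-(c * n)) * A n ⌈δ * n⌉₊) ∧
    -- (5) codes with linearly many parity equations with few variables
    (∀ (w : ℕ) (ρ θ : ℝ), 1 ≤ w → 0 < ρ →
      θ < 2 * Real.log 2 * (ρ * (1 - H (p δ w)) / Real.log ((1 - δ) / δ)) ^ 2 →
      ∃ c : ℝ, 0 < c ∧ ∃ N : ℕ, ∀ n ≥ N, ∀ (r : ℕ) (h : Fin r → Fin n → ZMod 2)
        (b : Fin r → ZMod 2) (C : Finset (Fin n → Bool)), IsCode δ C → ρ * n ≤ r →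
        Satisfies h b C → RowWeight h w → (C.card : ℝ) < (2 : ℝ) ^ ((1 - H δ + θ) * n) →
          (C.card : ℝ) ≤ (2 : ℝ) ^ (-(c * n)) * A n ⌈δ * n⌉₊) ∧
    -- (6) linear codes with parity checks with few variables
    (∀ (w : ℕ) (ε : ℝ), 1 ≤ w → 0 < ε → ∃ N : ℕ, ∀ n ≥ N, ∀ (r : ℕ)
      (h : Fin r → Fin n → ZMod 2), LinearIndependent (ZMod 2) h → RowWeight h w →
        IsCode δ (linearCode h) →
          1 - (r : ℝ) / n ≤ 1 - (H δ - φ δ (R δ - (1 - H δ))) / H (p δ w) + ε) := by
  have hcode : ∀ {n : ℕ} {C : Finset (Fin n → Bool)}, IsCode δ C →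
      ConstantWeightCriterion.IsCode ⌈δ * n⌉₊ C := fun h => h
  have part4 : ∀ κ θ : ℝ, 0 < κ → θ < 2 * Real.log 2 * (κ / Real.log ((1 - δ) / δ)) ^ 2 →
      ∃ c : ℝ, 0 < c ∧ ∃ N : ℕ, ∀ n ≥ N, ∀ C : Finset (Fin n → Bool), C.Nonempty → IsCode δ C →
        information δ C ≤ (1 - H δ - κ) * n → (C.card : ℝ) < (2 : ℝ) ^ ((1 - H δ + θ) * n) →
          (C.card : ℝ) ≤ (2 : ℝ) ^ (-(c * n)) * A n ⌈δ * n⌉₊ := by
    intro κ θ hκ hθ
    obtain ⟨c, hc, N, hN⟩ := GV.near_opt h0 h1 hκ hθ
    refine ⟨c, hc, N, fun n hn C hC hcd hI hs => hN n hn C hC (hcode hcd) ?_ hs⟩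
    rw [← equivocation_eq]
    exact hI
  have part5 : ∀ (n : ℕ) (C : Finset (Fin n → Bool)), C.Nonempty →
      ∀ (r w : ℕ) (h : Fin r → Fin n → ZMod 2) (b : Fin r → ZMod 2), 1 ≤ w → Satisfies h b C →
        RowWeight h w → information δ C ≤ (1 - H δ) * n - (1 - H (p δ w)) * r := by
    intro n C hC r w h b hw hsat hrow
    have := GV.parity_bound h0 h1 hw hsat.1 (fun j => hrow j) b hC (fun x hx j => hsat.2 x hx j)
    unfold information
    rw [equivocation_eq]
    have h2 : Real.logb 2 C.card - GV.eqv δ C ≤ (1 - H δ) * n - (1 - H (p δ w)) * r := by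
      rw [sub_le_iff_le_add]
      exact this
    exact h2
  refine ⟨?_, ?_, ?_, part4, ?_, ?_⟩
  · intro n hn C hC hcd
    refine ⟨?_, fun a => ?_⟩
    · rw [equivocation_eq, B_eq]
      exact GV.eqv_le h0 h1 hn hC (hcode hcd)
    · simp only [e_eq, B_eq]
      exact GV.tail_pe h0 h1 hn hC (hcode hcd) a
  · rw [E_eq, Elow_eq]
    exact GV.two_sided h0 h1
  · have h2 := GV.sharp_iff h0 h1
    have h3 : GV.UniqueSub δ ↔ ConstantWeightCriterion.R δ = 1 - ConstantWeightCriterion.H δ :=
      ⟨GV.sharp_of_sub h0 h1, fun h => GV.sub_of_strong h0 (GV.strong_of_sharp h0 h1 h)⟩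
    have e1 : E δ = 0 ↔ GV.E δ = 0 := by rw [E_eq]
    tfae_have 1 ↔ 2 := (h2.out 0 1).trans e1.symm
    tfae_have 1 ↔ 3 := h2.out 0 2
    tfae_have 1 ↔ 4 := h2.out 0 3
    tfae_have 1 ↔ 5 := h3.symm
    tfae_finish
  · intro w ρ θ hw hρ hθ
    have hp := GV.pw_mem h0 h1 hw
    have hH : H (p δ w) < 1 := by
      have h2 : H (p δ w) = Real.binEntropy (p δ w) / Real.log 2 :=
        ConstantWeightCriterion.H_eq' _
      have hlog : 0 < Real.log 2 := Real.log_pos (by norm_num)
      rw [h2, div_lt_one hlog]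
      apply Real.binEntropy_lt_log_two.2
      have : p δ w < 1 / 2 := hp.2
      intro h3
      rw [h3] at this
      norm_num at this
    have hκ : 0 < ρ * (1 - H (p δ w)) := mul_pos hρ (by linarith)
    obtain ⟨c, hc, N, hN⟩ := part4 _ θ hκ hθ
    refine ⟨c, hc, N, fun n hn r h b C hcd hr hsat hrow hs => ?_⟩
    rcases C.eq_empty_or_nonempty with hC | hC
    · subst hC
      simp only [Finset.card_empty, Nat.cast_zero]
      positivity
    refine hN n hn C hC hcd ?_ hs
    refine (part5 n C hC r w h b hw hsat hrow).trans ?_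
    have := mul_le_mul_of_nonneg_left hr (by linarith : 0 ≤ 1 - H (p δ w))
    linarith
  · intro w ε hw hε
    have hp := GV.pw_mem h0 h1 hw
    have hlog : 0 < Real.log 2 := Real.log_pos (by norm_num)
    have hH : 0 < H (p δ w) := by
      have h2 : H (p δ w) = Real.binEntropy (p δ w) / Real.log 2 :=
        ConstantWeightCriterion.H_eq' _
      rw [h2]
      apply div_pos _ hlog
      exact Real.binEntropy_pos hp.1 (by
        have : p δ w < 1 / 2 := hp.2
        linarith)
    set g : ℝ := R δ - (1 - H δ) with hg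
    have hev := (GV.bnd_ev h0 h1 (ε := ε * H (p δ w)) (by positivity)).and
      (eventually_ge_atTop 1)
    obtain ⟨N, hN⟩ := eventually_atTop.1 hev
    refine ⟨N, fun n hn r h hh hrow hcd => ?_⟩
    obtain ⟨a1, hn1⟩ := hN n hn
    have a2 : GV.bnd δ n + 4 ≤ (φ δ g + ε * H (p δ w)) * n := a1
    have hn0 : (0 : ℝ) < n := by exact_mod_cast hn1
    have hcard := GV.card_solutions hh (fun _ => 0)
    have hcard' : ((linearCode h).card : ℝ) * 2 ^ r = 2 ^ n := hcard
    have hpos : (0 : ℝ) < (linearCode h).card := by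
      by_contra hcon
      have h3 : ((linearCode h).card : ℝ) = 0 := le_antisymm (not_lt.1 hcon) (Nat.cast_nonneg _)
      rw [h3, zero_mul] at hcard'
      have : (0 : ℝ) < 2 ^ n := by positivity
      linarith
    have hC : (linearCode h).Nonempty := by
      rw [← Finset.card_pos]
      exact_mod_cast hpos
    have hlogc : Real.logb 2 ((linearCode h).card : ℝ) = n - r := by
      have h3 := congrArg (Real.logb 2) hcard'
      rw [Real.logb_mul hpos.ne' (by positivity), Real.logb_pow, Real.logb_pow,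
        Real.logb_self_eq_one (by norm_num)] at h3
      linarith
    have h4 := part5 n (linearCode h) hC r w h (fun _ => 0) hw
      ⟨hh, fun x hx j => (Finset.mem_filter.1 hx).2 j⟩ hrow
    have h5 := GV.eqv_le h0 h1 hn1 hC (hcode hcd)
    unfold information at h4
    rw [hlogc, equivocation_eq] at h4
    have h6 : (H δ - φ δ g) * n ≤ H (p δ w) * r + ε * H (p δ w) * n := by linarith
    have h7 : (H δ - φ δ g) / H (p δ w) ≤ r / n + ε := by
      rw [div_le_iff₀ hH]
      have : (r / n + ε) * H (p δ w) = (H (p δ w) * r + ε * H (p δ w) * n) / n := by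
        field_simp
      rw [this, le_div_iff₀ hn0]
      exact h6
    linarith

end Pool.Agent.Results.MP_0430e4_lc.EquivocationCriterion
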