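import Pool.Agent.Helper15K9.Low
import Pool.Agent.Helper15K9.Sch2
import Pool.Agent.Results.MP_0430e4_lc.LinearProgrammingLimit

/-!
# MP_0430e4_lc: semidefinite hierarchies of subexponential level have Delsarte's exponent

A pseudo-code of level `k` is a real function `y` on the sets of words which looks like
`y(S) = Prob(S ⊆ C)` for a random code `C` with minimum distance `d` as far as `k` words at a time
can see: all the pseudo-probabilities of `D ⊆ C, E ∩ C = ∅` with `|D| + |E| ≤ k` are nonnegative, and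
after conditioning on `D ⊆ C, E ∩ C = ∅` with `|D| + |E| ≤ k - 2` the matrix of the moments of order
two is positive semidefinite (the hierarchy of Gvozdenović, Laurent and Vallentin).  Level `3` is at
least as strong as Schrijver's three-point bound, level `r + 2` is at least as strong as `r` rounds
of the operator `N₊` of Lovász and Schrijver, and level `2 ^ n` is exact.

The theorem: for every relative distance in `(0, 1/2)`, the bounds of all these hierarchies have the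
same exponential rate as Delsarte's linear program, for all the levels `2 ^ o(n)`; for every `ε > 0`
there is `c > 0` such that the levels up to `2 ^ (c n)` do not improve the exponent by `ε`.  The same
is true for the bounds for codes with weights on the words (in particular, for codes inside an
arbitrary set of words), combined with the inequality of Elias and Bassalygo.
-/

set_option autoImplicit false

open Filter Topology

namespace Pool.Agent.Results.MP_0430e4_lc.KPointBounds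

/-- `A(n,d)`: the largest size of a binary code of length `n` with minimum distance at least `d`. -/
noncomputable def A (n d : ℕ) : ℕ :=
  sSup {k | ∃ C : Finset (Fin n → Bool),
    (∀ x ∈ C, ∀ y ∈ C, x ≠ y → d ≤ hammingDist x y) ∧ C.card = k}

/-- The pseudo-probability of `D ∪ S ⊆ C, E ∩ C = ∅`: `∑_{F ⊆ E} (-1)^|F| y(D ∪ F ∪ S)`. -/
def pseudoProb {n : ℕ} (y : Finset (Fin n → Bool) → ℝ) (D E S : Finset (Fin n → Bool)) : ℝ :=
  ∑ F ∈ E.powerset, (-1) ^ F.card * y (D ∪ F ∪ S)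

/-- Pseudo-codes of level `k`, length `n` and minimum distance `d`. In `psd` the indices `s`, `t` run
over the empty set (`none`) and the one-element sets of words (`some x`). -/
structure IsPseudoCode (k n d : ℕ) (y : Finset (Fin n → Bool) → ℝ) : Prop where
  one : y ∅ = 1
  dist : ∀ S : Finset (Fin n → Bool), ∀ u ∈ S, ∀ v ∈ S, u ≠ v → hammingDist u v < d → y S = 0
  nonneg : ∀ D E : Finset (Fin n → Bool), D.card + E.card ≤ k → 0 ≤ pseudoProb y D E ∅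
  psd : ∀ D E : Finset (Fin n → Bool), D.card + E.card + 2 ≤ k →
    ∀ a : Option (Fin n → Bool) → ℝ,
      0 ≤ ∑ s, ∑ t, a s * a t * pseudoProb y D E (s.toFinset ∪ t.toFinset)

/-- The `k`-point bound for the total weight of a code of length `n` and minimum distance `d`, the
words `x` having the weights `w x`. -/
noncomputable def Pw (k n d : ℕ) (w : (Fin n → Bool) → ℝ) : ℝ :=
  sSup {v : ℝ | ∃ y, IsPseudoCode k n d y ∧ v = ∑ x, w x * y {x}}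

/-- The `k`-point bound for the size of a code. -/
noncomputable def P (k n d : ℕ) : ℝ := Pw k n d fun _ => 1

/-- Rounds of the operator `N₊` of Lovász and Schrijver. Round `0`: fractional solutions `x` with
`x u + x v ≤ 1` for different words `u`, `v` at distance less than `d`. Round `r + 1`: `x` has a
matrix `Y` of moments of order two, positive semidefinite together with the moments `1` and `x`,
whose columns, divided by `x v`, and whose complementary columns, divided by `1 - x v`, belong to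
round `r`. -/
def LovaszSchrijver (n d : ℕ) : ℕ → ((Fin n → Bool) → ℝ) → Prop
  | 0, x => (∀ u, 0 ≤ x u ∧ x u ≤ 1) ∧ ∀ u v, u ≠ v → hammingDist u v < d → x u + x v ≤ 1
  | r + 1, x => ∃ Y : (Fin n → Bool) → (Fin n → Bool) → ℝ,
      (∀ u v, Y u v = Y v u) ∧ (∀ u, Y u u = x u) ∧
      (∀ (c : ℝ) (a : (Fin n → Bool) → ℝ),
        0 ≤ c ^ 2 + 2 * c * ∑ u, a u * x u + ∑ u, ∑ v, a u * a v * Y u v) ∧
      ∀ v, (∃ z, LovaszSchrijver n d r z ∧ ∀ u, Y u v = x v * z u) ∧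
        ∃ z, LovaszSchrijver n d r z ∧ ∀ u, x u - Y u v = (1 - x v) * z u

/-- The bound for the size of a code from `r` rounds of the operator `N₊`. -/
noncomputable def LS (r n d : ℕ) : ℝ := sSup {v : ℝ | ∃ x, LovaszSchrijver n d r x ∧ v = ∑ u, x u}

/-- The zero word. -/
def zero (n : ℕ) : Fin n → Bool := fun _ => false

/-- The sum of two words. -/
def add {n : ℕ} (u v : Fin n → Bool) : Fin n → Bool := fun i => xor (u i) (v i)

/-- Schrijver's three-point program: `x u v` stands for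
`|{c ∈ C : c + u ∈ C, c + v ∈ C}| / |C|`, averaged over the permutations of the coordinates. -/
structure IsSchrijver (n d : ℕ) (x : (Fin n → Bool) → (Fin n → Bool) → ℝ) : Prop where
  one : x (zero n) (zero n) = 1
  inv : ∀ u v u' v', hammingDist u (zero n) = hammingDist u' (zero n) →
    hammingDist v (zero n) = hammingDist v' (zero n) → hammingDist u v = hammingDist u' v' →
    x u v = x u' v'
  symm : ∀ u v, x u v = x v u
  shift : ∀ u v, x u v = x u (add u v)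
  dist : ∀ u v, u ≠ zero n → hammingDist u (zero n) < d → x u v = 0
  nonneg : ∀ u v, 0 ≤ x u v
  le : ∀ u v, x u v ≤ x u (zero n)
  ge : ∀ u v, x u (zero n) + x v (zero n) ≤ 1 + x u v
  psd₁ : ∀ a : (Fin n → Bool) → ℝ, 0 ≤ ∑ u, ∑ v, a u * a v * x u v
  psd₂ : ∀ a : (Fin n → Bool) → ℝ, 0 ≤ ∑ u, ∑ v, a u * a v * (x (add u v) (zero n) - x u v)

/-- Schrijver's bound. -/
noncomputable def Schrijver (n d : ℕ) : ℝ :=
  sSup {v : ℝ | ∃ x, IsSchrijver n d x ∧ v = ∑ u, x u (zero n)}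

/-- The binary Krawtchouk polynomial `K_j` of length `n` at `w`,
`∑_i (-1)^i (w choose i) (n - w choose j - i)`. -/
def krawtchouk (n j w : ℕ) : ℤ :=
  ∑ i ∈ Finset.range (j + 1), (-1) ^ i * (w.choose i : ℤ) * ((n - w).choose (j - i) : ℤ)

/-- `f(w) = ∑_{j ≤ n} l_j K_j(w)`. -/
noncomputable def combination (n : ℕ) (l : ℕ → ℝ) (w : ℕ) : ℝ :=
  ∑ j ∈ Finset.range (n + 1), l j * (krawtchouk n j w : ℝ)

/-- The feasible solutions of Delsarte's linear program. -/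
structure IsFeasible (n d : ℕ) (l : ℕ → ℝ) : Prop where
  nonneg : ∀ j, 0 ≤ l j
  pos : 0 < l 0
  nonpos : ∀ w : ℕ, d ≤ w → w ≤ n → combination n l w ≤ 0

/-- The value of Delsarte's linear program: the infimum of the bounds `f(0) / l_0`. -/
noncomputable def LP (n d : ℕ) : ℝ :=
  sInf {v : ℝ | ∃ l : ℕ → ℝ, IsFeasible n d l ∧ v = combination n l 0 / l 0}

/-- `η(x) = -x log₂ x`, with `η(0) = 0`. -/
noncomputable def η (x : ℝ) : ℝ := -x * Real.logb 2 x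

/-- The binary entropy function. -/
noncomputable def H (x : ℝ) : ℝ := η x + η (1 - x)

/-- `h(x) = H(1/2 - 1/2 √(1 - x))`. -/
noncomputable def h (x : ℝ) : ℝ := H (1 / 2 - 1 / 2 * √(1 - x))

/-- `α_k(e) = ∑_j sech²((2 j + k) e) / ∑_j sech((2 j + k) e)`, sums over all integers `j`. -/
noncomputable def α (k : ℤ) (e : ℝ) : ℝ :=
  (∑' j : ℤ, 1 / Real.cosh ((2 * j + k) * e) ^ 2) / ∑' j : ℤ, 1 / Real.cosh ((2 * j + k) * e)

/-- `S(e) = h(sech² e) - h(sech² 2e) + h(sech² 3e) - …`. -/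
noncomputable def S (e : ℝ) : ℝ := ∑' n : ℕ, (-1) ^ n * h (1 / Real.cosh ((n + 1) * e) ^ 2)

/-- The curve `(δ, θ)`: `θ` is the exponential rate of Delsarte's linear program at `δ`. -/
def Curve : Set (ℝ × ℝ) :=
  {p | (∃ e : ℝ, 0 < e ∧ p = ((1 - α 1 e) / 2, S e)) ∨
    (∃ e : ℝ, 0 < e ∧ p = ((1 - α 0 e) / 2, 1 - S e)) ∨ p = (1 / 2 - 1 / Real.pi, 1 / 2)}

open Pool.Agent.TH41.BL Pool.Agent.Y570 Pool.Agent.Helper15K9

lemma A_eq (n d : ℕ) : A n d = LinearProgrammingLimit.A n d := rfl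

lemma LP_eq (n d : ℕ) : LP n d = FINf.LPv n d := by
  have h1 : LP n d = LinearProgrammingLimit.LP n d := by
    unfold LP LinearProgrammingLimit.LP
    congr 1
    ext v
    constructor
    · rintro ⟨l, hl, rfl⟩
      exact ⟨l, ⟨hl.nonneg, hl.pos, hl.nonpos⟩, rfl⟩
    · rintro ⟨l, hl, rfl⟩
      exact ⟨l, ⟨hl.nonneg, hl.pos, hl.nonpos⟩, rfl⟩
  rw [h1, LinearProgrammingLimit.LP_eq]

lemma curve_eq : Curve = LinearProgrammingLimit.Curve := rfl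

lemma pc_iff (k n d : ℕ) (y : Finset (Fin n → Bool) → ℝ) :
    IsPseudoCode k n d y ↔ KP.PC n d k y :=
  ⟨fun h => ⟨h.one, h.dist, h.nonneg, h.psd⟩, fun h => ⟨h.one, h.dist, h.nonneg, h.psd⟩⟩

lemma Pw_eq (k n d : ℕ) (w : (Fin n → Bool) → ℝ) : Pw k n d w = KP.SW n d k w := by
  unfold Pw KP.SW
  congr 1
  ext v
  simp only [Set.mem_ofPred_eq, pc_iff]

lemma ls_iff (n d r : ℕ) : ∀ x : (Fin n → Bool) → ℝ,
    LovaszSchrijver n d r x ↔ Ls.LS n d r x := by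
  induction r with
  | zero => intro x; exact Iff.rfl
  | succ r ih =>
    intro x
    unfold LovaszSchrijver Ls.LS
    simp only [ih]

lemma LS_eq (n d r : ℕ) : LS r n d = Ls.LB n d r := by
  unfold LS Ls.LB
  congr 1
  ext v
  simp only [Set.mem_ofPred_eq, ls_iff]

lemma sch_iff (n d : ℕ) (x : (Fin n → Bool) → (Fin n → Bool) → ℝ) :
    IsSchrijver n d x ↔ Sch.SP n d x :=
  ⟨fun h => ⟨h.one, h.inv, h.symm, h.shift, h.dist, h.nonneg, h.le, h.ge, h.psd₁, h.psd₂⟩,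
    fun h => ⟨h.one, h.inv, h.symm, h.shift, h.dist, h.nonneg, h.le, h.ge, h.psd1, h.psd2⟩⟩

lemma Schrijver_eq (n d : ℕ) : Schrijver n d = Sch.SB n d := by
  unfold Schrijver Sch.SB
  congr 1
  ext v
  simp only [Set.mem_ofPred_eq, sch_iff]
  rfl

lemma nx {δ θ : ℝ} (h : (δ, θ) ∈ Curve) : Tw.Nx δ (θ * Real.log 2) := by
  rcases h with ⟨e, he, hp⟩ | ⟨e, he, hp⟩ | hp
  · obtain ⟨h2, h3⟩ := Prod.mk.inj hp
    subst h2 h3
    have e1 : α 1 e = B2s e / Bs e := LinearProgrammingLimit.α_one e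
    rw [e1]
    exact Tw.nx_two k7_chr he
  · obtain ⟨h2, h3⟩ := Prod.mk.inj hp
    subst h2 h3
    have e1 : α 0 e = A2s e / As e := LinearProgrammingLimit.α_zero e
    rw [e1]
    exact Tw.nx_one k7_chr he
  · obtain ⟨h2, h3⟩ := Prod.mk.inj hp
    subst h2 h3
    exact Tw.nx_mid k7_chr

lemma rpow_two (x : ℝ) : (2 : ℝ) ^ x = Real.exp (x * Real.log 2) := by
  rw [Real.rpow_def_of_pos (by norm_num), mul_comm]

lemma ceil_le {δ : ℝ} (hδ : 0 < δ) (n : ℕ) : ((⌈δ * n⌉₊ : ℕ) : ℝ) ≤ δ * n + 1 :=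
  (Nat.ceil_lt_add_one (by positivity)).le

lemma one_le_ceil {δ : ℝ} (hδ : 0 < δ) {n : ℕ} (hn : 1 ≤ n) : 1 ≤ ⌈δ * n⌉₊ := by
  have hnR : (0 : ℝ) < n := by exact_mod_cast hn
  exact Nat.ceil_pos.2 (by positivity)

/-- the lower bound, uniformly in the weights and in the level -/
lemma low {δ θ : ℝ} (h : (δ, θ) ∈ Curve) (ε : ℝ) (hε : 0 < ε) :
    ∃ c : ℝ, 0 < c ∧ ∃ n₀ : ℕ, ∀ n ≥ n₀, ∀ k : ℕ, 1 ≤ k → (k : ℝ) ≤ 2 ^ (c * n) →
      ∀ w : (Fin n → Bool) → ℝ, (∀ x, 0 ≤ w x) →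
      (2 : ℝ) ^ ((θ - ε) * n) * ∑ x, w x ≤ 2 ^ n * Pw k n ⌈δ * n⌉₊ w := by
  have hlog : 0 < Real.log 2 := Real.log_pos (by norm_num)
  have hδ : 0 < δ := (LinearProgrammingLimit.point h).1
  obtain ⟨c, hc, n₀, hn₀⟩ := Lw.lowA (nx h) hδ (ε * Real.log 2) (by positivity)
  refine ⟨c / Real.log 2, by positivity, max n₀ 1, fun n hn k hk hkn w hw => ?_⟩
  have h1 := hn₀ n (le_trans (le_max_left _ _) hn) k hk (by
    refine hkn.trans (le_of_eq ?_)
    rw [rpow_two]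
    congr 1
    field_simp) _ (one_le_ceil hδ (le_trans (le_max_right _ _) hn)) (ceil_le hδ n) w hw
  rw [Pw_eq]
  refine le_trans (le_of_eq ?_) h1
  congr 1
  rw [rpow_two]
  congr 1
  ring

/-- the trade-off -/
lemma trade {δ θ : ℝ} (h : (δ, θ) ∈ Curve) (δ' : ℝ) (hδ' : 0 < δ') (hδ : δ' < δ) (c : ℝ)
    (hc : 0 < c) (ε : ℝ) (hε : 0 < ε) :
    ∃ n₀ : ℕ, ∀ n ≥ n₀, ∀ k : ℕ, 1 ≤ k → (k : ℝ) ≤ 2 ^ (c * n) →
      ∀ w : (Fin n → Bool) → ℝ, (∀ x, 0 ≤ w x) →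
      (2 : ℝ) ^ ((min (θ - c * (δ' / (δ - δ') + 1 / 2)) (1 - c) - ε) * n) * ∑ x, w x ≤
        2 ^ n * Pw k n ⌈δ' * n⌉₊ w := by
  have hlog : 0 < Real.log 2 := Real.log_pos (by norm_num)
  obtain ⟨n₀, hn₀⟩ := Lw.lowB (nx h) hδ'.le hδ (c := c * Real.log 2) (by positivity)
    (ε * Real.log 2) (by positivity)
  refine ⟨max n₀ 1, fun n hn k hk hkn w hw => ?_⟩
  have h1 := hn₀ n (le_trans (le_max_left _ _) hn) k hk (by
    refine hkn.trans (le_of_eq ?_)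
    rw [rpow_two]
    congr 1
    ring) _ (one_le_ceil hδ' (le_trans (le_max_right _ _) hn)) (ceil_le hδ' n) w hw
  rw [Pw_eq]
  refine le_trans (le_of_eq ?_) h1
  congr 1
  rw [rpow_two]
  congr 1
  have e1 : min (θ * Real.log 2 - c * Real.log 2 * (δ' / (δ - δ') + 1 / 2))
      (Real.log 2 - c * Real.log 2) =
      min (θ - c * (δ' / (δ - δ') + 1 / 2)) (1 - c) * Real.log 2 := by
    rw [min_mul_of_nonneg _ _ hlog.le]
    congr 1 <;> ring
  rw [e1]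
  ring

lemma total (n : ℕ) : ∑ _x : Fin n → Bool, (1 : ℝ) = 2 ^ n := by
  rw [Finset.sum_const, Finset.card_univ, Fintype.card_fun, Fintype.card_bool, Fintype.card_fin]
  simp

/-- the lower bound for the number of words -/
lemma low_P {δ θ : ℝ} (h : (δ, θ) ∈ Curve) (ε : ℝ) (hε : 0 < ε) :
    ∃ c : ℝ, 0 < c ∧ ∃ n₀ : ℕ, ∀ n ≥ n₀, ∀ k : ℕ, 1 ≤ k → (k : ℝ) ≤ 2 ^ (c * n) →
      (2 : ℝ) ^ ((θ - ε) * n) ≤ P k n ⌈δ * n⌉₊ := by
  obtain ⟨c, hc, n₀, hn₀⟩ := low h ε hε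
  refine ⟨c, hc, n₀, fun n hn k hk hkn => ?_⟩
  have h1 := hn₀ n hn k hk hkn (fun _ => 1) fun _ => zero_le_one
  rw [total, mul_comm] at h1
  exact le_of_mul_le_mul_left h1 (by positivity)

lemma P_le_LP {k n d : ℕ} (hk : 2 ≤ k) (hd : 1 ≤ d) : P k n d ≤ LP n d := by
  rw [LP_eq]
  refine le_csInf ⟨_, _, DELf.feas_one hd, rfl⟩ ?_
  rintro v ⟨l, hl, rfl⟩
  unfold P Pw
  refine csSup_le ⟨_, _, (pc_iff k n d _).2 (KP.pc_code ∅ (by simp)), rfl⟩ ?_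
  rintro v ⟨y, hy, rfl⟩
  simp only [one_mul]
  exact ((pc_iff k n d y).1 hy).le_lp k7_chr hk hl

lemma antitone {k k' n d : ℕ} (hk : 1 ≤ k) (hkk : k ≤ k') {w : (Fin n → Bool) → ℝ}
    (hw : ∀ x, 0 ≤ w x) : Pw k' n d w ≤ Pw k n d w := by
  rw [Pw_eq, Pw_eq]
  refine csSup_le_csSup (KP.bdd_SW hk hw) ⟨_, _, KP.pc_code ∅ (by simp), rfl⟩ ?_
  rintro v ⟨y, hy, rfl⟩
  exact ⟨y, hy.mono hkk, rfl⟩

lemma code_le {k n d : ℕ} (hk : 1 ≤ k) {w : (Fin n → Bool) → ℝ} (hw : ∀ x, 0 ≤ w x) :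
    (A n d : ℝ) * ∑ x, w x ≤ 2 ^ n * Pw k n d w := by
  obtain ⟨C, hC, hcard⟩ := LinearProgrammingLimit.A_mem n d
  rw [A_eq, ← hcard, Pw_eq]
  exact KP.elias hk hw C hC

lemma A_le_P {k n d : ℕ} (hk : 1 ≤ k) : (A n d : ℝ) ≤ P k n d := by
  have h1 := code_le (n := n) (d := d) hk (w := fun _ => 1) fun _ => zero_le_one
  rw [total, mul_comm] at h1
  exact le_of_mul_le_mul_left h1 (by positivity)

lemma P_full {k n d : ℕ} (hk : 2 ^ n ≤ k) : P k n d = A n d := by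
  have hk1 : 1 ≤ k := le_trans (Nat.one_le_two_pow) hk
  refine le_antisymm ?_ (A_le_P hk1)
  unfold P Pw
  refine csSup_le ⟨_, _, (pc_iff k n d _).2 (KP.pc_code ∅ (by simp)), rfl⟩ ?_
  rintro v ⟨y, hy, rfl⟩
  simp only [one_mul]
  refine KP.full_level hk ((pc_iff k n d y).1 hy) (A n d) fun C hC => ?_
  have hb : BddAbove {k | ∃ C : Finset (Fin n → Bool),
      (∀ x ∈ C, ∀ y ∈ C, x ≠ y → d ≤ hammingDist x y) ∧ C.card = k} := by
    refine ⟨Fintype.card (Fin n → Bool), ?_⟩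
    rintro k ⟨C, -, rfl⟩
    exact Finset.card_le_univ C
  exact le_csSup hb ⟨C, hC, rfl⟩

lemma P_le_Schrijver (n d : ℕ) : P 3 n d ≤ Schrijver n d := by
  rw [Schrijver_eq]
  unfold P Pw
  refine csSup_le ⟨_, _, (pc_iff 3 n d _).2 (KP.pc_code ∅ (by simp)), rfl⟩ ?_
  rintro v ⟨y, hy, rfl⟩
  simp only [one_mul]
  exact Sch.sum_le_SB ((pc_iff 3 n d y).1 hy)

lemma Schrijver_le_LP {n d : ℕ} (hd : 1 ≤ d) : Schrijver n d ≤ LP n d := by
  rw [Schrijver_eq, LP_eq]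
  refine le_csInf ⟨_, _, DELf.feas_one hd, rfl⟩ ?_
  rintro v ⟨l, hl, rfl⟩
  unfold Sch.SB
  refine csSup_le ⟨_, _, Sch.SP.triv n d, rfl⟩ ?_
  rintro v ⟨x, hx, rfl⟩
  exact hx.le_lp k7_chr hl

lemma P_le_LS (r n d : ℕ) : P (r + 2) n d ≤ LS r n d := by
  rw [LS_eq]
  unfold P Pw
  refine csSup_le ⟨_, _, (pc_iff (r + 2) n d _).2 (KP.pc_code ∅ (by simp)), rfl⟩ ?_
  rintro v ⟨y, hy, rfl⟩
  simp only [one_mul]
  exact Ls.sum_le_LB ((pc_iff (r + 2) n d y).1 hy) le_rfl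

lemma LS_le_LP {r n d : ℕ} (hr : 1 ≤ r) (hd : 1 ≤ d) : LS r n d ≤ LP n d := by
  obtain ⟨r', rfl⟩ : ∃ r', r = r' + 1 := ⟨r - 1, by omega⟩
  rw [LS_eq, LP_eq]
  refine le_csInf ⟨_, _, DELf.feas_one hd, rfl⟩ ?_
  rintro v ⟨l, hl, rfl⟩
  unfold Ls.LB
  refine csSup_le ⟨_, _, Ls.ls_of_pc (KP.pc_code (n := n) (d := d) (k := r' + 1 + 2) ∅ (by simp))
    le_rfl, rfl⟩ ?_
  rintro v ⟨x, hx, rfl⟩
  exact hx.le_lp k7_chr hl

lemma lp_tendsto {δ θ : ℝ} (h : (δ, θ) ∈ Curve) :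
    Tendsto (fun n : ℕ => Real.logb 2 (LP n ⌈δ * n⌉₊) / n) atTop (𝓝 θ) := by
  obtain ⟨h0, h1, h2⟩ := LinearProgrammingLimit.point h
  simp_rw [LP_eq]
  exact FINf.limit h0 h1 h2

/-- the sandwich -/
lemma sandwich {δ θ : ℝ} (h : (δ, θ) ∈ Curve) (κ : ℕ → ℕ) (B : ℕ → ℝ) (h1 : ∀ n, 1 ≤ κ n)
    (hκ : ∀ c : ℝ, 0 < c → ∀ᶠ n : ℕ in atTop, (κ n : ℝ) ≤ 2 ^ (c * n))
    (hlow : ∀ n : ℕ, P (κ n) n ⌈δ * n⌉₊ ≤ B n)
    (hup : ∀ n : ℕ, 1 ≤ ⌈δ * n⌉₊ → B n ≤ LP n ⌈δ * n⌉₊) :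
    Tendsto (fun n : ℕ => Real.logb 2 (B n) / n) atTop (𝓝 θ) := by
  have hδ : 0 < δ := (LinearProgrammingLimit.point h).1
  have hLP := lp_tendsto h
  rw [Metric.tendsto_atTop'] at hLP ⊢
  intro ε hε
  obtain ⟨c, hc, n₁, hn₁⟩ := low_P h (ε / 2) (half_pos hε)
  obtain ⟨n₂, hn₂⟩ := hLP ε hε
  obtain ⟨n₃, hn₃⟩ := eventually_atTop.1 (hκ c hc)
  refine ⟨max n₁ (max n₂ n₃), fun n hn => ?_⟩
  have hn1 : n₁ ≤ n := (le_trans (le_max_left _ _) hn.le)
  have hn2 : n₂ < n := lt_of_le_of_lt ((le_max_left _ _).trans (le_max_right _ _)) hn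
  have hn3 : n₃ ≤ n := ((le_max_right _ _).trans (le_max_right _ _)).trans hn.le
  have hn0 : 0 < n := lt_of_le_of_lt (Nat.zero_le _) hn
  have hnR : (0 : ℝ) < n := by exact_mod_cast hn0
  have a1 := (hn₁ n hn1 (κ n) (h1 n) (hn₃ n hn3)).trans (hlow n)
  have a2 := hn₂ n hn2
  have hP : 0 < B n := lt_of_lt_of_le (by positivity) a1
  have hd1 : 1 ≤ ⌈δ * n⌉₊ := one_le_ceil hδ hn0
  have a3 := hup n hd1
  have a4 : Real.logb 2 (B n) ≤ Real.logb 2 (LP n ⌈δ * n⌉₊) :=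
    Real.logb_le_logb_of_le (by norm_num) hP a3
  have a5 : (θ - ε / 2) * n ≤ Real.logb 2 (B n) := by
    rw [Real.le_logb_iff_rpow_le (by norm_num) hP]
    exact a1
  rw [Real.dist_eq, abs_lt] at a2 ⊢
  have a6 : Real.logb 2 (B n) / n ≤ Real.logb 2 (LP n ⌈δ * n⌉₊) / n :=
    div_le_div_of_nonneg_right a4 hnR.le
  have a7 : θ - ε / 2 ≤ Real.logb 2 (B n) / n := by rwa [le_div_iff₀ hnR]
  constructor <;> linarith [a2.1, a2.2]

/-- subexponential levels -/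
lemma subexp {κ : ℕ → ℕ} (h1 : ∀ n, 1 ≤ κ n)
    (hκ : Tendsto (fun n : ℕ => Real.logb 2 (κ n) / n) atTop (𝓝 0)) (c : ℝ) (hc : 0 < c) :
    ∀ᶠ n : ℕ in atTop, (κ n : ℝ) ≤ 2 ^ (c * n) := by
  filter_upwards [hκ.eventually (eventually_lt_nhds hc), eventually_gt_atTop 0] with n hn hn0
  have hnR : (0 : ℝ) < n := by exact_mod_cast hn0
  rw [div_lt_iff₀ hnR] at hn
  have hκ0 : (0 : ℝ) < κ n := by exact_mod_cast h1 n
  exact (Real.logb_le_iff_le_rpow (by norm_num) hκ0).1 hn.le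

lemma subexp_add {κ : ℕ → ℕ} (h1 : ∀ n, 1 ≤ κ n)
    (hκ : Tendsto (fun n : ℕ => Real.logb 2 (κ n) / n) atTop (𝓝 0)) (c : ℝ) (hc : 0 < c) :
    ∀ᶠ n : ℕ in atTop, ((κ n + 2 : ℕ) : ℝ) ≤ 2 ^ (c * n) := by
  obtain ⟨N, hN⟩ := exists_nat_ge (4 / c)
  filter_upwards [subexp h1 hκ (c / 2) (half_pos hc), eventually_ge_atTop N] with n hn hn0
  have hnR : (N : ℝ) ≤ n := by exact_mod_cast hn0
  have h2 : 4 / c ≤ n := hN.trans hnR
  rw [div_le_iff₀ hc] at h2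
  have h3 : (4 : ℝ) ≤ 2 ^ (c / 2 * n) := by
    have h4 : (2 : ℝ) ^ (2 : ℝ) ≤ 2 ^ (c / 2 * n) :=
      Real.rpow_le_rpow_of_exponent_le (by norm_num) (by linarith)
    have h5 : (2 : ℝ) ^ (2 : ℝ) = 4 := by norm_num
    rwa [h5] at h4
  have h4 : (2 : ℝ) ^ (c * n) = 2 ^ (c / 2 * n) * 2 ^ (c / 2 * n) := by
    rw [← Real.rpow_add (by norm_num)]
    congr 1
    ring
  rw [h4]
  push_cast
  nlinarith

lemma const_sub (m : ℕ) (c : ℝ) (hc : 0 < c) : ∀ᶠ n : ℕ in atTop, (m : ℝ) ≤ 2 ^ (c * n) := by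
  obtain ⟨N, hN⟩ := exists_nat_ge (m / c)
  filter_upwards [eventually_ge_atTop N] with n hn0
  have hnR : (N : ℝ) ≤ n := by exact_mod_cast hn0
  have h2 : m / c ≤ n := hN.trans hnR
  rw [div_le_iff₀ hc] at h2
  have h3 : (m : ℝ) ≤ 2 ^ (m : ℝ) := by
    rw [Real.rpow_natCast]
    exact_mod_cast (Nat.lt_two_pow_self).le
  refine h3.trans (Real.rpow_le_rpow_of_exponent_le (by norm_num) (by linarith))

/-- **Semidefinite hierarchies of subexponential level have the exponent of Delsarte's linear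
program.** -/
theorem result :
    -- the bounds are valid, with arbitrary weights of the words (Elias and Bassalygo)
    (∀ k n d : ℕ, 1 ≤ k → ∀ w : (Fin n → Bool) → ℝ, (∀ x, 0 ≤ w x) →
      (A n d : ℝ) * ∑ x, w x ≤ 2 ^ n * Pw k n d w ∧ Pw (k + 1) n d w ≤ Pw k n d w) ∧
    -- from level 2 on they are at least as good as Delsarte's, and they are exact for large `k`
    (∀ k n d : ℕ, 2 ≤ k → 1 ≤ d → (A n d : ℝ) ≤ P k n d ∧ P k n d ≤ LP n d) ∧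
    (∀ k n d : ℕ, 2 ^ n ≤ k → P k n d = A n d) ∧
    -- comparison with Schrijver's bound, and with the hierarchy of Lovász and Schrijver
    (∀ n d : ℕ, 1 ≤ d → P 3 n d ≤ Schrijver n d ∧ Schrijver n d ≤ LP n d) ∧
    (∀ r n d : ℕ, 1 ≤ r → 1 ≤ d → P (r + 2) n d ≤ LS r n d ∧ LS r n d ≤ LP n d) ∧
    (∀ δ : ℝ, 0 < δ → δ < 1 / 2 → ∃ θ, (δ, θ) ∈ Curve) ∧
    ∀ δ θ : ℝ, (δ, θ) ∈ Curve →
      -- the exponents are those of Delsarte's bound, for all subexponential levels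
      Tendsto (fun n : ℕ => Real.logb 2 (LP n ⌈δ * n⌉₊) / n) atTop (𝓝 θ) ∧
      Tendsto (fun n : ℕ => Real.logb 2 (Schrijver n ⌈δ * n⌉₊) / n) atTop (𝓝 θ) ∧
      (∀ κ : ℕ → ℕ, (∀ n, 1 ≤ κ n) → Tendsto (fun n : ℕ => Real.logb 2 (κ n) / n) atTop (𝓝 0) →
        Tendsto (fun n : ℕ => Real.logb 2 (LS (κ n) n ⌈δ * n⌉₊) / n) atTop (𝓝 θ) ∧
        Tendsto (fun n : ℕ => Real.logb 2 (P (κ n + 1) n ⌈δ * n⌉₊) / n) atTop (𝓝 θ)) ∧
      -- small exponential levels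
      (∀ ε : ℝ, 0 < ε → ∃ c : ℝ, 0 < c ∧ ∃ n₀ : ℕ, ∀ n ≥ n₀, ∀ k : ℕ, 1 ≤ k →
        (k : ℝ) ≤ 2 ^ (c * n) → ∀ w : (Fin n → Bool) → ℝ, (∀ x, 0 ≤ w x) →
        (2 : ℝ) ^ ((θ - ε) * n) * ∑ x, w x ≤ 2 ^ n * Pw k n ⌈δ * n⌉₊ w) ∧
      -- exponential levels `2 ^ (c n)`: the exponent at a smaller relative distance `δ'`
      ∀ δ' : ℝ, 0 < δ' → δ' < δ → ∀ c : ℝ, 0 < c → ∀ ε : ℝ, 0 < ε →
        ∃ n₀ : ℕ, ∀ n ≥ n₀, ∀ k : ℕ, 1 ≤ k → (k : ℝ) ≤ 2 ^ (c * n) →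
        ∀ w : (Fin n → Bool) → ℝ, (∀ x, 0 ≤ w x) →
        (2 : ℝ) ^ ((min (θ - c * (δ' / (δ - δ') + 1 / 2)) (1 - c) - ε) * n) * ∑ x, w x ≤
          2 ^ n * Pw k n ⌈δ' * n⌉₊ w := by
  refine ⟨fun k n d hk w hw => ⟨code_le hk hw, antitone hk (Nat.le_succ k) hw⟩,
    fun k n d hk hd => ⟨A_le_P (by omega), P_le_LP hk hd⟩, fun k n d hk => P_full hk,
    fun n d hd => ⟨P_le_Schrijver n d, Schrijver_le_LP hd⟩,
    fun r n d hr hd => ⟨P_le_LS r n d, LS_le_LP hr hd⟩,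
    fun δ h0 h1 => ?_, fun δ θ h => ⟨lp_tendsto h, ?_, fun κ h1 hκ => ⟨?_, ?_⟩,
      fun ε hε => low h ε hε, fun δ' h0 h1 c hc ε hε => trade h δ' h0 h1 c hc ε hε⟩⟩
  · obtain ⟨θ, hθ⟩ := LinearProgrammingLimit.result.2.1 δ h0 h1
    exact ⟨θ, hθ⟩
  · exact sandwich h (fun _ => 3) _ (fun _ => by norm_num) (fun c hc => const_sub 3 c hc)
      (fun n => P_le_Schrijver n _) fun n hd => Schrijver_le_LP hd
  · exact sandwich h (fun n => κ n + 2) _ (fun _ => by omega)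
      (fun c hc => subexp_add h1 hκ c hc) (fun n => P_le_LS (κ n) n _) fun n hd =>
        LS_le_LP (h1 n) hd
  · refine sandwich h (fun n => κ n + 1) _ (fun _ => by omega) (fun c hc => ?_)
      (fun n => le_rfl) fun n hd => P_le_LP (by have := h1 n; omega) hd
    filter_upwards [subexp_add h1 hκ c hc] with n hn
    refine le_trans ?_ hn
    push_cast
    linarith

end Pool.Agent.Results.MP_0430e4_lc.KPointBounds
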